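import Pool.Agent.P.MP_08fd93_co.FH.St
import Pool.Agent.P.MP_08fd93_co.FT.T1
import Pool.Agent.P.MP_08fd93_co.FA.F1

/-! Short tails under one top edge: the plan with one flow. -/

set_option autoImplicit false

namespace Pool.Agent.P.MP_08fd93_co.FL

open OV FN FK FZ FA PkPrtP FP2 FP FH TT

variable {J : Type} {F : FD J} {X : XD J} {Pr : Set (Vx J)} {φ : Vx J → Vx J} {b : ℤ × ℤ}
  {x A l t : Vx J} {Sr Sk : Set J}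

/-- One flow: sources `x`, `l` and sinks `A`, `t` on the rows zero and one. -/
structure OF (F : FD J) (φ : Vx J → Vx J) (x A l t : Vx J) (Sr Sk : Set J) : Prop where
  dis : ∀ i ∈ Sr, i ∉ Sk
  ne : ∀ j, ∃ m ∈ F.L j, m.1 ∈ Sk
  alt : ∀ j, ∀ s ∈ F.L j, ∀ s' ∈ F.L j, s.1 ∈ Sk → s'.1 ∈ Sk → F.ρ s < F.ρ s' →
    ∃ g ∈ F.L j, g.1 ∈ Sr ∧ F.ρ s < F.ρ g ∧ F.ρ g < F.ρ s'
  sx : x.1 ∈ Sr
  kA : A.1 ∈ Sk
  sl : l.1 ∈ Sr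
  kt : t.1 ∈ Sk
  up : ∀ g ∈ F.LA, g.1 ∈ Sr → g.1 = x.1 ∨ ((φ g).1 ∈ Sk ∧ ∀ y ∈ F.L 1, (φ g).1 ≠ y.1)
  uni : ∀ j, ∀ g ∈ F.L j, ∀ g' ∈ F.L j, g.1 ∈ Sr → g'.1 ∈ Sr → g.1 = g'.1

theorem one_flow (H : LB F X Pr φ b) (hl : l ∈ F.L 1) (ht : t ∈ F.L 1) (n : l.1 ≠ t.1) :
    ∃ A ∈ F.L 0, ∀ x ∈ F.L 0, x.1 ≠ A.1 → ∃ Sr Sk, OF F φ x A l t Sr Sk := by
  have b2 := H.b2
  have hF := H.lay
  obtain ⟨m, hm⟩ : ∃ m : ℕ, F.η b = m + 2 := ⟨(F.η b - 2).toNat, by omega⟩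
  obtain ⟨g, e0, hg⟩ := seq_ex (fun k x => x ∈ F.L (k + 1 : ℕ)) (fun x y => y.1 ≠ (φ x).1) l hl
    fun k x _ => let ⟨z, h1, h2, _⟩ := H.off (k + 1 + 1 : ℕ) (φ x) (φ x); ⟨z, h1, h2⟩
  subst e0
  have hA : tr (-b) (φ (g m)) ∈ F.L 0 := by
    have := (hF.ltr (-b) _ _).2 (H.up (hg m).1)
    rwa [map_neg, show ((m + 1 + 1 : ℕ) : ℤ) + -F.η b = 0 by push_cast; omega] at this
  refine ⟨_, hA, fun x hx ne => ?_⟩
  let s : ℕ → Vx J := fun k => Nat.casesOn k x g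
  let u : ℕ → Vx J := fun k =>
    Nat.casesOn k (tr (-b) (φ (g m))) fun k => Nat.casesOn k t fun k => φ (g k)
  have ls : ∀ k, Lv F (F.η b) k (s k) := by
    rintro (_ | k)
    exacts [H.lv_l (k := 0) hx, H.lv_l (hg k).1]
  have lu : ∀ k, Lv F (F.η b) k (u k) := by
    rintro (_ | _ | k)
    exacts [H.lv_l (k := 0) hA, H.lv_l (k := 1) ht, H.lv_l (H.up (hg k).1)]
  have ds : ∀ k, (s k).1 ≠ (u k).1 := by
    rintro (_ | _ | k)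
    exacts [ne, n, (hg k).2]
  have same : ∀ {j : ℤ} {x y : Vx J} {k k' : ℕ}, x ∈ F.L j → y ∈ F.L j → Lv F (F.η b) k x →
      Lv F (F.η b) k' y → (k : ℤ) < F.η b → (k' : ℤ) < F.η b → k = k' :=
    fun hx hy a a' l l' => lv_uni a a' ((hF.lf _ _ hx).trans (hF.lf _ _ hy).symm) l l'
  refine ⟨OJ (F.η b) s, OJ (F.η b) u, ?_, fun j => ?_, ?_, ⟨0, by omega, rfl⟩, ⟨0, by omega, rfl⟩,
    ⟨1, by omega, rfl⟩, ⟨1, by omega, rfl⟩, ?_, ?_⟩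
  · rintro i ⟨k, l, rfl⟩ ⟨k', l', e⟩
    obtain rfl := H.lv_eq (ls k) (lu k') e l l'
    exact ds k e
  · obtain ⟨k, l, d⟩ := H.lv_of j
    obtain ⟨y, hy, e⟩ := H.lv_ex (lu k) d
    exact ⟨y, hy, k, l, e⟩
  · rintro j x hx y hy ⟨k, l, e⟩ ⟨k', l', e'⟩ lt
    have a := H.lv_orb (lu k) e
    obtain rfl := same hx hy a (H.lv_orb (lu k') e') l l'
    obtain ⟨g, hg, e1⟩ := H.lv_ex (ls k) (j := j) (hF.lf _ _ hx ▸ a.2)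
    obtain ⟨z, hz, e2, k1⟩ := H.btw hx hy hg (e.trans e'.symm)
      (fun o => ds k (e1.symm.trans (o.trans e))) lt
    exact ⟨z, hz, ⟨k, l, e2.trans e1⟩, k1⟩
  · rintro y hy ⟨_ | k, l, e⟩
    · exact Or.inl e
    have e' : (φ y).1 = (φ (g k)).1 := H.ph.fst hy e
    obtain ⟨k', l', e1, n1⟩ : ∃ k' : ℕ, (k' : ℤ) < F.η b ∧ (φ y).1 = (u k').1 ∧ k' ≠ 1 := by
      by_cases c : k = m
      exacts [⟨0, by omega, (c ▸ e' : _ = (φ (g m)).1), by omega⟩, ⟨k + 2, by omega, e', by omega⟩]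
    exact Or.inr ⟨⟨k', l', e1⟩, fun w hw o =>
      n1 (H.lv_eq (lu k') (H.lv_l (k := 1) hw) (e1.symm.trans o) l' (by omega))⟩
  · rintro j x hx y hy ⟨k, l, e⟩ ⟨k', l', e'⟩
    obtain rfl := same hx hy (H.lv_orb (ls k) e) (H.lv_orb (ls k') e') l l'
    exact e.trans e'.symm

theorem OF.ori (hF : Lay F X Pr) (O : OF F φ x A l t Sr Sk) :
    FR.Ori F (ed ⟨Sr, Sk, ∅, ∅⟩) (AS F {y | y.1 ∈ Sr} {y | y.1 ∈ Sk} ∪ ∅) :=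
  FR.ori_as (E := ed ⟨Sr, Sk, ∅, ∅⟩) hF ⟨fun _ _ h => h, fun _ _ h => h, fun _ _ h => h,
    fun _ _ h => h, fun _ _ h => h, fun _ _ h => h, fun x => O.dis x.1, subset_rfl,
    Set.empty_subset _, fun j => Or.inl (O.ne j), O.alt⟩ FR.Dir.empty

variable {G : TD J} {v z la lb lc ld : Vx J}

section

variable (h : TQ G v z la lb lc ld) (hφ : PH (FT G) G.Pr φ) (W : Wr G z la lc ld)
include h W

theorem wr_ne : ld.1 ≠ lb.1 := fun e => by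
  have hF := h.st.lay
  obtain ⟨a1, b1, -, d1, o1, o2, o3, o4⟩ := h.ord
  obtain ⟨k, -, q⟩ := same_cls hF b1 d1 e.symm
  have q : G.ρ ld = G.ρ lb + k * G.nn 1 := q
  have : G.ρ la ≠ G.ρ lb := fun c =>
    h.ne (by rw [← h.hb.2, ← h.rows.inj a1 b1 c, W.eh])
  have := h.n4 1
  rcases le_or_gt k 0 with c | c <;> nlinarith [lt_of_le_of_ne o1 ‹_›]

include hφ

/-- all edges of one period of the row zero lie under one edge -/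
theorem wr_phi (hx : x ∈ G.L 0) (l1 : G.ρ (G.xl z) ≤ G.ρ x) (l2 : G.ρ x < G.ρ (G.xl z) + G.nn 0) :
    φ x = ld := by
  have hF := h.st.lay
  obtain ⟨a1, -, -, d1, -, -, -, o4⟩ := h.ord
  obtain ⟨p1, -, p2⟩ := h.phi hφ hx
  obtain ⟨w1, w2⟩ := hF.w_mem (-1) (j := 0) hx
  have w2 : G.ρ (tr ((-1 : ℤ) • G.w) x) = G.ρ x + -1 * G.nn 0 := w2
  obtain ⟨-, q2, -⟩ := h.phi hφ w1
  have q3 := q2 (lt_of_eq_of_lt w2 (by omega))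
  rw [show φ (tr ((-1 : ℤ) • (FT G).w) x) = tr ((-1 : ℤ) • (FT G).w) (φ x) from
    hφ.eqv _ _ (hF.la hx)] at q3
  have r2 : G.ρ (tr ((-1 : ℤ) • (FT G).w) (φ x)) = G.ρ (φ x) + -1 * G.nn 1 := (hF.w_mem (-1) p1).2
  have r3 : G.ρ (tr ((1 : ℤ) • G.w) la) = G.ρ la + 1 * G.nn 1 := (hF.w_mem 1 a1).2
  rw [one_smul, ← W.ed] at r3
  have := p2 l1
  exact h.rows.inj p1 d1 (by omega)

theorem wr_tk (O : OF (FT G) φ x A ld lb Sr Sk) (hx : x ∈ G.L 0) (px : φ x = ld) {fa : Prop}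
    {jz : Jb} (pa : fa ∨ jz = .a) (j2 : jz = .a ∨ jz = .no)
    (ear : G.xl z ≠ G.xr z → x.1 ≠ (G.xl z).1 ∧ (jz = .a → A.1 = (G.xr z).1))
    (kl : KeepL G (Pin G ⟨Sr, Sk, ∅, ∅⟩) (Vt G ⟨Sr, Sk, ∅, ∅⟩) ⟨fa, True, False, True⟩)
    {S : Set (Sym2 (Vx J))} (fr : Free G ld S) (s1 : s(z, G.xr z) ∈ S) (s2 : s(x, G.nx x) ∈ S)
    (s3 : fa → ea G z ∈ S) : TK G φ z ⟨Sr, Sk, ∅, ∅⟩ ⟨⟨fa, True, False, True⟩, .c, jz,
      AS (FT G) {y | y.1 ∈ Sr} {y | y.1 ∈ Sk} ∪ ∅, ∅, ∅, ∅⟩ := by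
  have hF := h.st.lay
  obtain ⟨a1, b1, -, d1, -⟩ := h.ord
  have nb := wr_ne h W
  have ea1 : ld.1 = la.1 := by rw [W.ed]; rfl
  have pin : ∀ g, g ∈ Pin G ⟨Sr, Sk, ∅, ∅⟩ → ¬ Chd G g → g.1 ∈ Sr := fun g m n =>
    (m.resolve_right n).resolve_right id
  have upx : ∀ g ∈ G.LA, g.1 = x.1 → (φ g).1 = ld.1 := fun g a e => px ▸ hφ.fst a e
  refine ⟨fun i m => ⟨O.dis i m, id⟩, fun _ m => m.elim, fun _ m => m.elim,
    fun j => let ⟨m, a, k⟩ := O.ne j; Or.inl ⟨m, a, k, id⟩, O.ori hF, pa, Or.inl trivial,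
    Or.inr (Or.inl rfl), Or.inl trivial, fun n => ?_, kl, keepR_d trivial, fun e he => ?_⟩
  · have n1 : (G.xl z).1 ∉ Sr := fun k => (ear n).1 (O.uni 0 x hx _ h.feet.1.1 O.sx k)
    refine ⟨n1, fun c => (O.ori hF).pv _ (hF.la h.feet.1.1) n1 ?_, fun c => ?_, fun c => ?_⟩
    · rw [show (FT G).nx (G.xl z) = G.xr z from (h.feet.2.2.1.resolve_left n.symm).symm]
      exact (O.ori hF).snk _ (hF.la h.feet.2.1.1) (show _ ∈ Sk from (ear n).2 c ▸ O.kA)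
    · rcases j2 with k | k <;> cases c.symm.trans k
    · rcases j2 with k | k <;> rcases c with c | c <;> cases c.symm.trans k
  by_cases c : e.1 = ld.1
  · obtain ⟨X', Q, o⟩ := fr
    refine Or.inr (Or.inr (Or.inr (Or.inr ⟨ld.2 - e.2, ?_⟩)))
    rw [← FK.eq_tr c]
    refine Or.inl ⟨Or.inl (Or.inl (Or.inl O.sl)), S, X', Q, fun f m => ?_, o⟩
    rcases (h.ss_iff hφ (hF.la d1)).1 m with ⟨g, g1, g2, g3, g4, rfl⟩ |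
      ⟨a, ⟨r, e1, rfl⟩ | ⟨-, e1, -⟩ | ⟨r, -⟩ | ⟨-, e1, rfl⟩⟩
    · have := (O.up g g2 (pin g g1 g4)).resolve_right fun k => k.2 ld d1 (g3 ▸ rfl)
      rw [hφ.inj1 g2 this (g3.trans px.symm)]
      exact s2
    · rw [tr_eq_tr (e1.symm.trans W.ed)]
      exact s3 r
    · exact absurd (e1 ▸ rfl) nb
    · exact r.elim
    · rw [tr_eq_tr (e1.symm.trans (tr_zero ld).symm), tr_zero, tr_zero]
      exact s1
  have sub : ∀ {T : Set (Sym2 (Vx J))}, (∀ g ∈ G.LA, g.1 ∈ Sr → φ g = e → s(g, G.nx g) ∈ T) →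
      (∀ a, e = tr a lb → s(tr a v, tr a z) ∈ T) →
      SST G (Pin G ⟨Sr, Sk, ∅, ∅⟩) ⟨fa, True, False, True⟩ e ⊆ T := fun k k' f m => by
    rcases (h.ss_iff hφ he).1 m with ⟨g, g1, g2, g3, g4, rfl⟩ |
      ⟨a, ⟨-, e1, -⟩ | ⟨-, e1, rfl⟩ | ⟨r, -⟩ | ⟨-, e1, -⟩⟩
    exacts [k g g2 (pin g g1 g4) g3, absurd (e1 ▸ ea1.symm) c, k' a e1, r.elim,
      absurd (e1 ▸ rfl) c]
  have up : ∀ g ∈ G.LA, g.1 ∈ Sr → φ g = e → e.1 ∈ Sk ∧ ∀ y ∈ G.L 1, e.1 ≠ y.1 := fun g a m k =>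
    k ▸ (O.up g a m).resolve_left fun o => c (k ▸ upx g a o)
  by_cases c1 : e.1 = lb.1
  · refine Or.inr (Or.inl ⟨s(tr (e.2 - lb.2) v, tr (e.2 - lb.2) z),
      sub (fun g a m k => absurd c1 ((up g a m k).2 lb b1)) ?_, Or.inl (c1 ▸ O.kt)⟩)
    rintro a rfl
    simp [tr]
  have k' : ∀ {T : Set (Sym2 (Vx J))}, ∀ a, e = tr a lb → s(tr a v, tr a z) ∈ T :=
    fun a k => absurd (k ▸ rfl) c1
  by_cases c0 : ∃ g ∈ G.LA, g.1 ∈ Sr ∧ φ g = e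
  swap
  · exact Or.inl (sub (fun g a1 a2 a3 => c0 ⟨g, a1, a2, a3⟩) k')
  obtain ⟨g, g1, g2, g3⟩ := c0
  refine Or.inr (Or.inl ⟨s(g, G.nx g), sub (fun y a1 a2 a3 => ?_) k', Or.inl (up g g1 g2 g3).1⟩)
  have e1 := hφ.lev hF a1
  have e2 := hφ.lev hF g1
  rw [a3] at e1
  rw [g3] at e2
  rw [hφ.inj1 a1 (O.uni _ y a1 g ((show (FT G).f g = (FT G).f y by omega) ▸ g1) a2 g2)
    (a3.trans g3.symm)]
  rfl

end

theorem h1_of (col : ∀ (J : Type) [Fintype J] (G : TD J) (φ : Vx J → Vx J)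
    (v z la lb lc ld : Vx J) (E : EJ J) (Y : TX J), TQ G v z la lb lc ld → PH (FT G) G.Pr φ →
      TK G φ z E Y → ∃ c, Col1 G.Γ ∅ c) : S_H1 := by
  rintro J _ G φ v z la lb lc ld h - hφ ⟨W, f1, y, hy, ey, f2⟩
  have hF := h.st.lay
  have n4 := h.n4 0
  obtain ⟨b, H⟩ := lb_ex hF hφ (fun j => by have := h.n4 j; show 3 ≤ G.nn j; omega) h.rows.wp.ev
  obtain ⟨A, -, k⟩ := one_flow H h.ord.2.2.2.1 h.ord.2.1 (wr_ne h W)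
  obtain ⟨⟨l0, -⟩, ⟨r0, -⟩, ft, -⟩ := h.feet
  obtain ⟨n1, n2, -⟩ := h.rows.nx_mem l0
  have rr : G.ρ (G.xl z) ≤ G.ρ (G.xr z) ∧ G.ρ (G.xr z) ≤ G.ρ (G.xl z) + 1 := by
    rcases ft with c | c <;> rw [c] <;> omega
  have far : ∀ x ∈ G.L 0, ∀ t ∈ G.L 0, G.ρ x < G.ρ t → G.ρ t < G.ρ x + G.nn 0 → t.1 ≠ x.1 :=
    fun x a t a' l1 l2 => by
      have : (G.l 0 _).1 ≠ (G.l 0 _).1 := l_ne hF 0 l1 l2
      rw [h.rows.l_rho a, h.rows.l_rho a'] at this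
      exact this.symm
  by_cases c : (G.xr z).1 = A.1
  · obtain ⟨m1, m2, -⟩ := h.rows.nx_mem hy
    have r3 : G.ρ (tr ((1 : ℤ) • G.w) (G.xl z)) = G.ρ (G.xl z) + 1 * G.nn 0 := (hF.w_mem 1 l0).2
    rw [one_smul, ← ey] at r3
    obtain ⟨Sr, Sk, O⟩ := k y hy (c ▸ far _ r0 y hy (by omega) (by omega))
    refine col J G φ v z la lb lc ld _ _ h hφ (wr_tk h hφ W O hy
      (wr_phi h hφ W hy (by omega) (by omega)) (fa := False) (Or.inr rfl) (Or.inl rfl)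
      (fun _ => ⟨far _ l0 y hy (by omega) (by omega), fun _ => c.symm⟩)
      (keepL_b trivial fun k hk => ?_) f2 (Or.inl rfl) (Or.inr rfl) False.elim)
    obtain ⟨a, -, e, -⟩ := h.k_x hk
    refine ⟨tr (a - G.w) y, Or.inl (Or.inl O.sx), (hF.la_tr _ _).2 (hF.la hy), ?_⟩
    rw [h.rows.nx_tr _ hy, ey, tr_tr, e]
    simp
  · obtain ⟨Sr, Sk, O⟩ := k _ r0 c
    exact col J G φ v z la lb lc ld _ _ h hφ (wr_tk h hφ W O r0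
      (wr_phi h hφ W r0 rr.1 (by omega)) (fa := True) (jz := .no) (Or.inl trivial) (Or.inr rfl)
      (fun n => ⟨far _ l0 _ r0 (by rw [ft.resolve_left n.symm]; omega) (by omega), nofun⟩)
      (keepL_a trivial) f1 (Or.inl rfl) (Or.inr (Or.inl rfl)) fun _ => Or.inr (Or.inr rfl))

end Pool.Agent.P.MP_08fd93_co.FL
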