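import Pool.Agent.P.MP_08fd93_co.FL.L2

/-! Depth one, long root: the choice of the pins. -/

set_option autoImplicit false

namespace Pool.Agent.P.MP_08fd93_co.FL

open OV FN FK PkPrtP

variable {J : Type} {F : FD J} {X : XD J} {Pr : Set (Vx J)} {φ : Vx J → Vx J} {v : Vx J}
  {b : ℤ × ℤ}

theorem nk_a {q : ℤ} {k : ℕ} (c : (k : ℤ) + 1 < q) : nk q k = k + 1 := if_pos c

theorem nk_b {q : ℤ} {k : ℕ} (c : ¬ (k : ℤ) + 1 < q) : nk q k = 0 := if_neg c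

variable (H : LR F X Pr φ v b)
include H

theorem LR.up {k : ℕ} {x : Vx J} (hx : x ∈ F.L k) : φ x ∈ F.L (k + 1 : ℕ) := by
  have := H.ph.mem (H.lay.la hx)
  rwa [H.lay.lf _ _ hx] at this

theorem LR.l0 : pv F v ∈ F.L (0 : ℕ) := (pv_mem H.lay H.v0).1

theorem LR.r0 : F.nx v ∈ F.L (0 : ℕ) := (H.lay.nx_mem H.v0).1

/-- One flow: the pins of the rows zero and one are given. -/
theorem LR.one {p0 s1 t1 : Vx J} (hp : p0 ∈ F.L 0) (hs : s1 ∈ F.L 1) (ht : t1 ∈ F.L 1)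
    (ne : s1.1 ≠ t1.1) (top : ∀ g, g = pv F v ∨ g = p0 →
      (φ g).1 = t1.1 ∨ ((φ g).1 = s1.1 ∧ Rg F g (φ g)))
    (fib : (φ (pv F v)).1 = (φ p0).1 → (pv F v).1 = p0.1)
    (rt : p0 = v ∨ (F.an (pv F v) = F.an (F.nx v) ∧
      ∃ u ∈ Pr, (u = s1 ∨ u = F.nx s1) ∧ F.an u = F.nx v)) : ∃ G Src Snk, LS F Pr φ G Src Snk := by
  classical
  have b2 := H.b2
  obtain ⟨g, g0, hg⟩ := seq_ex (fun k x => x ∈ F.L (k + 1 : ℕ)) (fun x y => y.1 ≠ (φ x).1) s1 hs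
    fun k x _ => let ⟨z, h1, h2, _⟩ := H.off (k + 1 + 1 : ℕ) (φ x) (φ x); ⟨z, h1, h2⟩
  subst g0
  obtain ⟨m, hm⟩ : ∃ m : ℕ, F.η b = m + 2 := ⟨(F.η b - 2).toNat, by omega⟩
  have lc : Lv F (F.η b) 0 (φ (g m)) := by
    have := H.lv_phi (H.lv_l (hg m).1) (by push_cast; omega)
    rwa [nk_b (by push_cast; omega)] at this
  obtain ⟨c, c1, c2, c3, c4⟩ : ∃ c, Lv F (F.η b) 0 c ∧ (pv F v).1 ≠ c.1 ∧ c.1 ≠ v.1 ∧
      ((φ (g m)).1 = c.1 ∨ (φ (g m)).1 = (pv F v).1) := by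
    by_cases e : (φ (g m)).1 = (pv F v).1
    exacts [⟨_, H.lv_l H.r0, H.three.2.2, H.three.2.1, Or.inr e⟩,
      ⟨_, lc, Ne.symm e, H.php (H.lay.la (hg m).1), Or.inl rfl⟩]
  refine ⟨_, _, _, LQ.sys H (s := fun k => Nat.casesOn k (pv F v) g)
    (p := fun k => Nat.casesOn k p0 g)
    (t := fun k => Nat.casesOn k c fun k => Nat.casesOn k t1 fun k => φ (g k))
    ⟨?_, ?_, ?_, ?_, ?_, ?_, rfl, c3, rt⟩⟩
  · rintro (_ | k) -
    exacts [H.lv_l H.l0, H.lv_l (hg k).1]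
  · rintro (_ | k) -
    exacts [H.lv_l (k := 0) hp, H.lv_l (hg k).1]
  · rintro (_ | _ | k) -
    exacts [c1, H.lv_l (k := 1) ht, H.lv_l (H.up (hg k).1)]
  · rintro (_ | _ | k) -
    exacts [c2, ne, (hg k).2]
  · rintro (_ | k) l y hy
    · rw [nk_a (by omega)]
      exact (top y hy).imp_right fun o => Or.inr ⟨o.1, Or.inr o.2⟩
    · obtain rfl : y = g k := hy.elim id id
      by_cases e : ((k + 1 : ℕ) : ℤ) + 1 < F.η b
      · rw [nk_a e]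
        exact Or.inl rfl
      · rw [nk_b e]
        obtain rfl : k = m := by omega
        exact c4.imp_right fun o => Or.inr ⟨o, Or.inl ((H.in_iff lc.1).2 o)⟩
  · rintro (_ | k) - e
    exacts [Or.inl (fib e), Or.inl rfl]

/-- the edge above an edge, from the parents of its ends -/
theorem LR.phi_eq {j : ℤ} {y z z' : Vx J} (hy : y ∈ F.L j) (hz : z ∈ F.L (j + 1)) (pz : z ∈ Pr)
    (hz' : z' ∈ F.L (j + 1)) (pz' : z' ∈ Pr) (l1 : F.ρ (F.an z) ≤ F.ρ y)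
    (l2 : F.ρ y < F.ρ (F.an z'))
    (k : ∀ t ∈ F.L (j + 1), t ∈ Pr → F.ρ z < F.ρ t → F.ρ z' ≤ F.ρ t) : φ y = z := by
  refine (H.ph.uni y (H.lay.la hy) z ?_).symm
  unfold Und
  rw [H.lay.lf _ _ hy]
  exact ⟨hz, pz, l1, fun t ht pt l => l2.trans_le (H.lay.amono _ _ hz' _ ht pz' pt (k t ht pt l))⟩

theorem LR.an_fst {x y : Vx J} (px : x ∈ Pr) (e : y.1 = x.1) : (F.an y).1 = (F.an x).1 := by
  rw [FK.eq_tr e.symm, H.lay.atr _ x px]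
  rfl

theorem LR.pr1 {x : Vx J} (hx : x ∈ F.L 1) : x ∈ Pr :=
  H.pr_lv (H.lv_l (k := 1) hx) one_ne_zero (by have := H.b2; omega)

theorem LR.an1 {x : Vx J} (hx : x ∈ F.L 1) : F.an x ∈ F.L 0 := H.lay.anL 1 x hx (H.pr1 hx)

/-- a vertex that is squeezed: the parent of the edge above `y` -/
theorem LR.sq {j : ℤ} {y t : Vx J} (hy : y ∈ F.L j) (ht : t ∈ F.L (j + 1)) (pt : t ∈ Pr)
    (e : F.an t = y) : F.an (φ y) = y := by
  obtain ⟨a1, a2, a3, a4⟩ := H.ph.und y (H.lay.la hy)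
  rw [H.lay.lf _ _ hy] at a1 a4
  have l : F.ρ t ≤ F.ρ (φ y) := not_lt.1 fun o => by
    have := a4 t ht pt o
    rw [e] at this
    omega
  have := H.lay.amono _ _ ht _ a1 pt a2 l
  rw [e] at this
  have m := H.lay.anL _ _ a1 a2
  rw [add_sub_cancel_right] at m
  exact H.lay.inj m hy (by omega)

/-- Case B. -/
theorem LR.caseB (e : F.an (pv F v) = F.an (F.nx v)) {a : Vx J} (ha : a ∈ F.L 1)
    (ea : F.an a = F.nx v) : ∃ G Src Snk, LS F Pr φ G Src Snk := by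
  obtain ⟨a1, a2, a3⟩ := pv_mem H.lay ha
  have n := H.ne a1 ha (by omega) (by omega)
  by_cases c : a.1 = (φ (pv F v)).1
  · exact H.one H.l0 a1 (H.up H.l0) (fun o => n (o.trans c.symm))
      (fun g o => Or.inl (by rw [o.elim id id])) (fun _ => rfl)
      (Or.inr ⟨e, a, H.pr1 ha, Or.inr a3.symm, ea⟩)
  · exact H.one H.l0 ha (H.up H.l0) c (fun g o => Or.inl (by rw [o.elim id id])) (fun _ => rfl)
      (Or.inr ⟨e, a, H.pr1 ha, Or.inl rfl, ea⟩)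

/-- Case K, the rung on the left. -/
theorem LR.caseK {y : Vx J} (hy : y ∈ F.L 1) (e : F.an (F.nx y) = v) (n : (F.an y).1 ≠ v.1)
    (a : F.Γ.Adj v y) : ∃ G Src Snk, LS F Pr φ G Src Snk := by
  obtain ⟨n1, n2, -⟩ := H.lay.nx_mem hy
  obtain ⟨a1, a2, a3⟩ := pv_mem H.lay H.v0
  have l := H.lay.amono _ _ hy _ n1 (H.pr1 hy) (H.pr1 n1) (by omega)
  rw [e] at l
  have l' : F.ρ (F.an y) ≠ F.ρ v := fun o => n (congrArg Prod.fst (H.lay.inj (H.an1 hy) H.v0 o))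
  have e1 : φ (pv F v) = y := H.phi_eq a1 hy (H.pr1 hy) n1 (H.pr1 n1) (by omega)
    (by rw [e]; omega) fun t _ _ o => by omega
  have ne : y.1 ≠ (φ v).1 := fun o => n ((H.an_fst (H.ph.und v H.vla).2.1 o).trans
    (congrArg Prod.fst (H.sq H.v0 n1 (H.pr1 n1) e)))
  refine H.one H.v0 hy (H.up (k := 0) H.v0) ne ?_ (fun o => absurd (e1 ▸ o) ne) (Or.inl rfl)
  rintro g (rfl | rfl)
  · rw [e1]
    exact Or.inr ⟨rfl, Or.inl (a3.symm ▸ a)⟩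
  · exact Or.inl rfl

/-- Case K, the rung on the right. -/
theorem LR.caseK' {y : Vx J} (hy : y ∈ F.L 1) (e : F.an y = v) (n : (F.an (F.nx y)).1 ≠ v.1)
    (a : F.Γ.Adj v (F.nx y)) : ∃ G Src Snk, LS F Pr φ G Src Snk := by
  have hF := H.lay
  obtain ⟨n1, n2, -⟩ := hF.nx_mem hy
  obtain ⟨a1, a2, -⟩ := pv_mem hF H.v0
  have l := hF.amono _ _ hy _ n1 (H.pr1 hy) (H.pr1 n1) (by omega)
  rw [e] at l
  have l' : F.ρ (F.an (F.nx y)) ≠ F.ρ v := fun o =>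
    n (congrArg Prod.fst (hF.inj (H.an1 n1) H.v0 o))
  have e1 : φ v = y := H.phi_eq H.v0 hy (H.pr1 hy) n1 (H.pr1 n1) (by rw [e])
    (by omega) fun t _ _ o => by omega
  have ne : y.1 ≠ (φ (pv F v)).1 := fun o => by
    obtain ⟨u1, u2, u3, u4⟩ := H.ph.und _ (hF.la a1)
    rw [hF.lf _ _ a1] at u1 u4
    obtain ⟨m1, m2, -⟩ := hF.nx_mem u1
    have l1 : F.ρ (φ (pv F v)) < F.ρ y := not_le.1 fun k => by
      have := hF.amono _ _ hy _ u1 (H.pr1 hy) u2 k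
      rw [e] at this
      omega
    have l2 := u4 _ m1 (H.pr1 m1) (by omega)
    have l3 := hF.amono _ _ m1 _ hy (H.pr1 m1) (H.pr1 hy) (by omega)
    rw [e] at l3
    have e2 := hF.inj (H.an1 m1) H.v0 (by omega)
    refine n ((H.an_fst (H.pr1 m1) ?_).trans (congrArg Prod.fst e2))
    rw [FK.eq_tr o.symm, hF.nx_tr _ u1]
    rfl
  refine H.one H.v0 hy (H.up H.l0) ne ?_ (fun o => absurd (e1 ▸ o.symm) ne) (Or.inl rfl)
  rintro g (rfl | rfl)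
  · exact Or.inl rfl
  · rw [e1]
    exact Or.inr ⟨rfl, Or.inr a⟩

/-- two centres: one is pinned, and a source, on different sides of an invariant set -/
theorem LR.pick (j : ℤ) (A : J → Prop) (d d' : Vx J) : ∃ p t, ∃ s ∈ F.L j,
    ((p = d ∧ t = d') ∨ (p = d' ∧ t = d)) ∧ s.1 ≠ p.1 ∧ s.1 ≠ t.1 ∧
      ((∃ y ∈ F.L j, A y.1) → (∃ y ∈ F.L j, ¬ A y.1) → ¬ (A p.1 ↔ A s.1)) := by
  by_contra c
  simp only [not_exists, not_and, not_forall, not_not] at c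
  obtain ⟨z, hz, z1, z2⟩ := H.off j d d'
  obtain ⟨⟨y, hy, a⟩, ⟨y', hy', a'⟩, k⟩ := c d d' z hz (Or.inl ⟨rfl, rfl⟩) z1 z2
  obtain ⟨-, -, k'⟩ := c d' d z hz (Or.inr ⟨rfl, rfl⟩) z2 z1
  have key : ∀ y ∈ F.L j, (A y.1 ↔ A z.1) := fun y hy => by
    by_cases e : y.1 = d.1
    · exact e ▸ k
    by_cases e' : y.1 = d'.1
    · exact e' ▸ k'
    obtain ⟨-, -, o⟩ := c d d' y hy (Or.inl ⟨rfl, rfl⟩) e e'
    exact o.symm.trans k
  exact a' ((key y' hy').2 ((key y hy).1 a))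

/-- Case A: two flows. -/
theorem LR.caseA (n : (F.an (pv F v)).1 ≠ (F.an (F.nx v)).1) :
    ∃ G Src Snk, LS F Pr φ G Src Snk := by
  classical
  have b2 := H.b2
  have hF := H.lay
  let A : J → Prop := fun i => ∃ y ∈ F.LA, y.1 = i ∧ (φ y).1 = (pv F v).1
  have hA : ∀ y ∈ F.LA, A y.1 ↔ (φ y).1 = (pv F v).1 := fun y hy =>
    ⟨fun ⟨z, hz, e, k⟩ => (H.ph.fst hz e).symm.trans k, fun k => ⟨y, hy, rfl, k⟩⟩
  obtain ⟨g, g0, hg⟩ := seq_ex (α := Vx J × Vx J × Vx J)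
    (fun k x => x.1 ∈ F.L k ∧ x.2.1 ∈ F.L k ∧ x.2.2 ∈ F.L k ∧ (k ≠ 0 → x.1.1 ≠ x.2.1.1 ∧
      x.1.1 ≠ x.2.2.1 ∧ ((∃ y ∈ F.L k, A y.1) → (∃ y ∈ F.L k, ¬ A y.1) → ¬ (A x.2.1.1 ↔ A x.1.1))))
    (fun x y => (y.2.1 = φ x.2.1 ∧ y.2.2 = φ x.1) ∨ (y.2.1 = φ x.1 ∧ y.2.2 = φ x.2.1))
    (pv F v, v, v) ⟨H.l0, H.v0, H.v0, fun k => absurd rfl k⟩ fun k x hx => by
      obtain ⟨p, t, s, hs, h1, h2⟩ := H.pick (k + 1 : ℕ) A (φ x.2.1) (φ x.1)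
      have a1 := H.up hx.1
      have a2 := H.up hx.2.1
      exact ⟨(s, p, t), ⟨hs, h1.elim (fun o => o.1 ▸ a2) fun o => o.1 ▸ a1,
        h1.elim (fun o => o.2 ▸ a1) fun o => o.2 ▸ a2, fun _ => h2⟩, h1⟩
  obtain ⟨m, hm⟩ : ∃ m : ℕ, F.η b = m + 2 := ⟨(F.η b - 2).toNat, by omega⟩
  obtain ⟨a1, a2, -⟩ := pv_mem hF H.v0
  obtain ⟨n1, n2, -⟩ := hF.nx_mem H.v0
  have p1 := (H.pr _).2 H.three.1
  have p2 := (H.pr _).2 H.three.2.1
  have q1 := hF.anL _ _ a1 p1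
  have q2 := hF.anL _ _ n1 p2
  have lv : ∀ x ∈ F.L (0 - 1), tr b x ∈ F.L (m + 1 : ℕ) := fun x hx => by
    have := (hF.ltr b _ x).2 hx
    rwa [show 0 - 1 + F.η b = (m + 1 : ℕ) by push_cast; omega] at this
  have l := hF.amono _ _ a1 _ n1 p1 p2 (by omega)
  have l' : F.ρ (F.an (pv F v)) ≠ F.ρ (F.an (F.nx v)) := fun o =>
    n (congrArg Prod.fst (hF.inj q1 q2 o))
  have i1 : A (F.an (pv F v)).1 := (hA _ (hF.la q1)).2 (congrArg Prod.fst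
    (H.phi_eq q1 a1 p1 n1 p2 le_rfl (by omega) fun t ht pt o => by
      by_contra k
      exact H.vn (hF.inj ht H.v0 (by omega) ▸ pt)))
  have i2 : ¬ A (F.an (F.nx v)).1 := fun k => n ((H.an_fst p1 ((hA _ (hF.la q2)).1 k)).symm.trans
    (congrArg Prod.fst (H.sq q2 n1 p2 rfl)))
  obtain ⟨⟨s1, s2, -, s3⟩, -⟩ := hg (m + 1)
  have xo := (s3 (Nat.succ_ne_zero m)).2.2 ⟨_, lv _ q1, i1⟩ ⟨_, lv _ q2, i2⟩
  rw [hA _ (hF.la s1), hA _ (hF.la s2)] at xo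
  have lc : ∀ x ∈ F.L (m + 1 : ℕ), Lv F (F.η b) 0 (φ x) := fun x hx => by
    have := H.lv_phi (H.lv_l hx) (by push_cast; omega)
    rwa [nk_b (by push_cast; omega)] at this
  obtain ⟨c, c1, c2, c3, c4⟩ : ∃ c, Lv F (F.η b) 0 c ∧ (pv F v).1 ≠ c.1 ∧ c.1 ≠ v.1 ∧
      ∀ y, y = (g (m + 1)).1 ∨ y = (g (m + 1)).2.1 → (φ y).1 = c.1 ∨ (φ y).1 = (pv F v).1 := by
    by_cases e : (φ (g (m + 1)).1).1 = (pv F v).1
    · refine ⟨_, lc _ s2, fun o => xo ⟨fun _ => e, fun _ => o.symm⟩, H.php (hF.la s2), ?_⟩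
      rintro y (rfl | rfl)
      exacts [Or.inr e, Or.inl rfl]
    · refine ⟨_, lc _ s1, Ne.symm e, H.php (hF.la s1), ?_⟩
      rintro y (rfl | rfl)
      exacts [Or.inl rfl, Or.inr (not_not.1 fun o => xo ⟨fun k => absurd k o, fun k => absurd k e⟩)]
  refine ⟨_, _, _, LQ.sys H (s := fun k => (g k).1) (p := fun k => (g k).2.1)
    (t := fun k => Nat.casesOn k c fun k => (g (k + 1)).2.2)
    ⟨fun k _ => H.lv_l (hg k).1.1, fun k _ => H.lv_l (hg k).1.2.1, ?_, ?_, fun k l y hy => ?_,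
      fun k l e => ?_, by rw [g0], c3, Or.inl (by rw [g0])⟩⟩
  · rintro (_ | k) -
    exacts [c1, H.lv_l (hg (k + 1)).1.2.2.1]
  · rintro (_ | k) -
    exacts [by rw [g0]; exact c2, ((hg (k + 1)).1.2.2.2 (Nat.succ_ne_zero k)).2.1]
  · by_cases e : (k : ℤ) + 1 < F.η b
    · rw [nk_a e]
      have ne := ((hg (k + 1)).1.2.2.2 (Nat.succ_ne_zero k)).1.symm
      rcases (hg k).2 with o | o <;> rcases hy with rfl | rfl
      exacts [Or.inl (congrArg Prod.fst o.2.symm), Or.inr (Or.inl ⟨congrArg Prod.fst o.1.symm, ne⟩),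
        Or.inr (Or.inl ⟨congrArg Prod.fst o.1.symm, ne⟩), Or.inl (congrArg Prod.fst o.2.symm)]
    · rw [nk_b e]
      obtain rfl : k = m + 1 := by omega
      refine (c4 y hy).imp_right fun o => Or.inr ⟨by rw [g0]; exact o, Or.inl ?_⟩
      exact (H.in_iff (lc y (hy.elim (fun k => k ▸ s1) fun k => k ▸ s2)).1).2 o
  · by_cases e' : (k : ℤ) + 1 < F.η b
    · rw [nk_a e']
      rcases (hg k).2 with o | o
      exacts [Or.inr ⟨congrArg Prod.fst o.2.symm, (congrArg Prod.fst o.2).trans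
        (e.trans (congrArg Prod.fst o.1.symm))⟩, Or.inr ⟨e.trans (congrArg Prod.fst o.2.symm),
        (congrArg Prod.fst o.2).trans (e.symm.trans (congrArg Prod.fst o.1.symm))⟩]
    · obtain rfl : k = m + 1 := by omega
      exact absurd (by rw [e]) xo

end Pool.Agent.P.MP_08fd93_co.FL
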