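import Pool.Agent.P.MP_08fd93_co.FL.L1
import Pool.Agent.P.MP_08fd93_co.FL.L3
import Pool.Agent.P.MP_08fd93_co.FR.Fun
import Pool.Agent.P.MP_08fd93_co.FZ.Asm

/-! Depth one: the long root. -/

set_option autoImplicit false

namespace Pool.Agent.P.MP_08fd93_co.FL

open OV FN FK FR PkPrtP

/-- A long root when there are no spikes. -/
theorem long : FZ.S_Long := by
  intro J _ Γ η v f hJ hG hN ev _ R k
  obtain ⟨F, u, rfl, rfl, -, H, c⟩ := long_cases hJ hG.nl hN ev R k.1 k.2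
  have hF := lay_of_w H.wf
  obtain ⟨φ, h⟩ := ph_ex hF H.wf.pne
  obtain ⟨b, b0, bd⟩ := hF.gen
  have L : LR F (X0 F) {x | x.1 ≠ u.1} φ u b := ⟨hF, h, fun _ => Iff.rfl, H.v0,
    rows_three hG H.wf.toRows, by obtain ⟨r, hr⟩ := ev b; omega, bd⟩
  have f0 := hF.lf 0 u H.v0
  have e1 : xL F u = pv F u := by unfold pv; rw [f0]
  have e2 : xR F u = F.nx u := by unfold FD.nx; rw [f0]
  obtain ⟨G, Src, Snk, S⟩ : ∃ G Src Snk, LS F {x | x.1 ≠ u.1} φ G Src Snk := by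
    unfold CA CB CK at c
    rw [e1, e2] at c
    rcases c with c | ⟨c, y, hy, -, e⟩ | ⟨y, hy, c | c⟩
    · refine L.caseA ?_
      have q1 := hF.anL 0 _ (pv_mem hF H.v0).1 L.three.1
      have q2 := hF.anL 0 _ (hF.nx_mem H.v0).1 L.three.2.1
      rw [zero_sub] at q1 q2
      have := l_ne hF (-1) c.1 c.2
      rwa [hF.l_rho q1, hF.l_rho q2] at this
    · exact L.caseB c (hF.nx_mem hy).1 e
    · exact L.caseK' hy c.1 c.2.1 c.2.2
    · exact L.caseK hy c.1 c.2.1 c.2.2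
  exact S.col H.wf h

end Pool.Agent.P.MP_08fd93_co.FL
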