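import Pool.Agent.P.MP_08fd93_co.FL.S2
import Pool.Agent.P.MP_08fd93_co.FA.F2
import Pool.Agent.P.MP_08fd93_co.FA.Sp1
import Pool.Agent.P.MP_08fd93_co.FK.K7

/-! A spike with two narrow sides. -/

set_option autoImplicit false

namespace Pool.Agent.P.MP_08fd93_co.FL

open OV FN FK FZ FA PkPrtP

variable {J : Type} {F : FD J} {X : XD J} {Pr : Set (Vx J)} {φ : Vx J → Vx J} {b : ℤ × ℤ}
  {x y : Vx J} {j : ℤ} {i : J}

/-- The orbits of the rows. -/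
def JA (F : FD J) : Set J := {i | ((i, 0) : Vx J) ∈ F.LA}

/-- The level of an orbit. -/
def Jl (F : FD J) (b : ℤ × ℤ) (i : J) : ℕ := ((F.f (i, 0) - 1) % F.η b).toNat

/-- The map on the orbits. -/
def Jm (φ : Vx J → Vx J) (i : J) : J := (φ (i, 0)).1

theorem emod_succ (a : ℤ) {q : ℤ} (h : 0 < q) :
    (a + 1) % q = a % q + 1 ∨ (a % q + 1 = q ∧ (a + 1) % q = 0) := by
  have e : (a + 1) % q = (a % q + 1) % q := (Int.emod_add_emod a q 1).symm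
  have l := Int.emod_lt_of_pos a h
  have n := Int.emod_nonneg a h.ne'
  by_cases c : a % q + 1 = q
  · exact Or.inr ⟨c, by rw [e, c, Int.emod_self]⟩
  · exact Or.inl (e.trans (Int.emod_eq_of_lt (by omega) (by omega)))

section

variable (H : LB F X Pr φ b)
include H

theorem ja : x.1 ∈ JA F ↔ x ∈ F.LA := by
  rw [FK.eq_tr (x := (x.1, 0)) (y := x) rfl, H.lay.la_tr]
  rfl

theorem jm (hx : x ∈ F.LA) : Jm φ x.1 = (φ x).1 := H.ph.fst ((ja H).2 hx) rfl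

theorem jn (hx : x ∈ F.LA) : Jm F.nx x.1 = (F.nx x).1 := by
  have := H.lay.nx_tr (x.2 - 0) (j := F.f (x.1, 0)) ((ja H).2 hx)
  rw [← FK.eq_tr (x := (x.1, 0)) (y := x) rfl] at this
  rw [this]
  rfl

theorem jit (hx : x ∈ F.LA) (n : ℕ) : (Jm φ)^[n] x.1 = (φ^[n] x).1 := by
  induction n with
  | zero => rfl
  | succ n ih => rw [its, ih, jm H (PH.it_la H.lay H.ph hx n), Function.iterate_succ_apply']

theorem jl (hx : x ∈ F.L j) : (Jl F b x.1 : ℤ) = (j - 1) % F.η b := by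
  have b2 := H.b2
  have e := H.lay.per (x.2 - 0) (x.1, 0)
  rw [← FK.eq_tr (x := (x.1, 0)) (y := x) rfl, H.lay.lf _ _ hx] at e
  obtain ⟨c, hc⟩ := H.bd (x.2 - 0)
  rw [Jl, Int.toNat_of_nonneg (Int.emod_nonneg _ (by omega)), e, hc, add_sub_right_comm,
    Int.add_mul_emod_self_left]

theorem jrow (hi : i ∈ JA F) (e : (Jl F b i : ℤ) = (j - 1) % F.η b) : ∃ y ∈ F.L j, y.1 = i := by
  obtain ⟨c, hc⟩ := Int.ModEq.dvd (n := F.η b) ((jl H (x := (i, 0)) hi).symm.trans e)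
  refine ⟨tr (c • b) (i, 0), ?_, rfl⟩
  have := (H.lay.ltr (c • b) _ _).2 hi
  rwa [map_zsmul, smul_eq_mul, show F.f (i, 0) + c * F.η b = j by linear_combination -hc] at this

theorem jnn {k : ℕ} (e : (k : ℤ) = (j - 1) % F.η b) : F.nn j = F.nn (k + 1) := by
  rw [← FR.nn_tr H.lay (((j - 1) / F.η b) • b) (k + 1), map_zsmul, smul_eq_mul, e]
  congr 1
  linear_combination -Int.emod_add_mul_ediv (j - 1) (F.η b)

theorem jcy {l r : Vx J} (hl : l ∈ F.L 1) (hr : r ∈ F.L 1) (n : l.1 ≠ r.1)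
    (nar : ∀ y ∈ F.LA, (φ y).1 ≠ l.1 ∧ (φ y).1 ≠ r.1) :
    Cy (F.η b).toNat (JA F) (Jl F b) (Jm φ) (Jm F.nx) l.1 r.1 := by
  have b2 := H.b2
  have hF := H.lay
  have z : ∀ x ∈ F.L 1, x.1 ∈ JA F ∧ Jl F b x.1 = 0 := fun x hx =>
    ⟨(ja H).2 (hF.la hx), by simpa using jl H hx⟩
  refine ⟨by omega, fun i hi => ?_, fun i hi => (ja H).2 (H.ph.la hF hi), fun i hi => ?_,
    fun k l x y => ?_, fun i hi => ?_, fun i hi => ?_, z l hl, z r hr, n, fun i hi => nar _ hi⟩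
  · have e1 : (Jl F b i : ℤ) = _ := jl H (x := (i, 0)) hi
    have := Int.emod_lt_of_pos (F.f (i, 0) - 1) (show 0 < F.η b by omega)
    omega
  · have e1 : (Jl F b i : ℤ) = _ := jl H (x := (i, 0)) hi
    have e2 : (Jl F b (Jm φ i) : ℤ) = _ := jl H (H.ph.mem hi)
    have := emod_succ (F.f (i, 0) - 1) (show 0 < F.η b by omega)
    rw [add_sub_right_comm] at e2
    omega
  · obtain ⟨z, z1, z2, z3⟩ := H.off (k + 1) (x, 0) (y, 0)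
    have := jl H z1
    rw [add_sub_cancel_right, Int.emod_eq_of_lt (by omega) (by omega)] at this
    exact ⟨z.1, (ja H).2 (hF.la z1), by omega, z2, z3⟩
  · obtain ⟨n1, n2, -⟩ := hF.nx_mem (j := F.f (i, 0)) hi
    have e1 : (Jl F b i : ℤ) = _ := jl H (x := (i, 0)) hi
    have e2 : (Jl F b (Jm F.nx i) : ℤ) = _ := jl H n1
    have := l_ne hF (F.f (i, 0)) (i := F.ρ (i, 0)) (i' := F.ρ (F.nx (i, 0))) (by omega)
      (by have := H.n3 (F.f (i, 0)); omega)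
    rw [hF.l_rho (j := F.f (i, 0)) hi, hF.l_rho n1] at this
    exact ⟨(ja H).2 (hF.la n1), by omega, this.symm⟩
  · obtain ⟨n1, -, n2⟩ := pv_mem hF (j := F.f (i, 0)) hi
    exact ⟨_, (ja H).2 (hF.la n1), by rw [jn H (hF.la n1), n2]⟩

end

variable {G : VD J} {v l r z : Vx J}

/-- the parents of the ends of an edge over an edge differ -/
theorem ph_ne (hF : Lay F X Pr) (h : PH F Pr φ) (pr : ∀ x, x ∈ Pr) (hy : y ∈ F.LA) :
    F.an (φ y) ≠ F.an (F.nx (φ y)) := fun e => by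
  obtain ⟨a1, -, a3, a4⟩ := h.und y hy
  obtain ⟨n1, n2, -⟩ := hF.nx_mem a1
  have := a4 _ n1 (pr _) (by omega)
  rw [← e] at this
  omega

theorem res_col [Fintype J] (h : SR G v l r) (H : LB (FN.FL G) (XL G) G.Pr φ b) (hl : HL G)
    (hr : HR G) (nar : ∀ y ∈ G.LA, (φ y).1 ≠ z.1) (hz : z = l ∨ z = r)
    (R : Res (G.η b).toNat (JA (FN.FL G)) (Jl (FN.FL G) b) (Jm φ) (Jm G.nx)
      (fun k => Even (G.nn (k + 1))) z.1) : ∃ c, Col1 G.Γ ∅ c := by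
  obtain ⟨m, Sr, Sk, Ps, S⟩ := R
  have hF := H.lay
  have b2 : 2 ≤ G.η b := H.b2
  have lev : ∀ {j x y}, x ∈ G.L j → y ∈ G.L j → Jl (FN.FL G) b x.1 = Jl (FN.FL G) b y.1 :=
    fun hx hy => Nat.cast_injective ((jl H hx).trans (jl H hy).symm)
  refine SK.col (E := ⟨Sr, Sk, Ps, ∅⟩) (m0 := m) (pL := z = l) (pR := z = r) h H.ph
    ⟨S.dis, fun j => ?_, fun j s hs s' hs' a a' lt => ?_, hz, Or.inr (Or.inl hl),
      Or.inr (Or.inl hr), fun e he => ?_⟩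
  · obtain ⟨k, hk⟩ := Int.eq_ofNat_of_zero_le (Int.emod_nonneg (j - 1) (show G.η b ≠ 0 by omega))
    have := Int.emod_lt_of_pos (j - 1) (show 0 < G.η b by omega)
    by_cases c : Even (G.nn (k + 1)) ∧ k = Jl (FN.FL G) b m
    · exact Or.inr ((jnn H hk.symm).symm ▸ c.1)
    obtain ⟨-, i, i1, i2⟩ := S.ex k (by omega) c
    obtain ⟨y, y1, y2⟩ := jrow H (S.sub i (Or.inr (Or.inl i1))) (j := j) (i2 ▸ hk.symm)
    exact Or.inl ⟨y, y1, y2 ▸ i1⟩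
  · have e1 := jl H hs
    have := Int.emod_lt_of_pos (j - 1) (show 0 < G.η b by omega)
    obtain ⟨⟨i, i1, i2⟩, -⟩ := S.ex (Jl (FN.FL G) b s.1) (by
      have e1 : _ = (j - 1) % G.η b := e1
      omega) fun c => (S.m2 (c.2 ▸ c.1)).2 _ a c.2
    obtain ⟨y, y1, y2⟩ := jrow H (S.sub i (Or.inl i1)) (j := j) (i2 ▸ e1)
    obtain ⟨t, t1, t2, t3⟩ := H.btw hs hs' y1 (S.uk _ a _ a' (lev hs hs'))
      (fun k => (S.dis i i1).1 (y2 ▸ k ▸ a)) lt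
    exact ⟨t, t1, (t2.trans y2).symm ▸ i1, t3⟩
  by_cases c : e.1 = z.1
  · refine Or.inr (Or.inl ⟨s(tr (e.2 - z.2) v, tr (e.2 - z.2) (G.xl v)),
      h.ss_sub H.ph he (fun g a _ k => absurd (k ▸ c) (nar g a)) ?_ ?_, c ▸ S.eps⟩)
    all_goals
      rintro rfl a rfl
      simp [tr]
  have sub : ∀ {T : Set (Sym2 (Vx J))}, (∀ g ∈ G.LA, g.1 ∈ Sr ∪ Ps → φ g = e → s(g, G.nx g) ∈ T) →
      SS G (P0 ⟨Sr, Sk, Ps, ∅⟩) (z = l) (z = r) e ⊆ T := fun k =>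
    h.ss_sub H.ph he k (by rintro rfl a rfl; exact absurd rfl c)
      (by rintro rfl a rfl; exact absurd rfl c)
  by_cases c0 : ∃ g ∈ G.LA, g.1 ∈ Sr ∪ Ps ∧ φ g = e
  swap
  · exact Or.inl (sub fun g a1 a2 a3 => c0 ⟨g, a1, a2, a3⟩)
  obtain ⟨g, g1, g2, g3⟩ := c0
  have up : ∀ g ∈ G.LA, φ g = e → Jm φ g.1 = e.1 := fun g a k => k ▸ jm H a
  have one : ∀ g ∈ G.LA, φ g = e → ∀ t ∈ G.LA, φ t = e → t.1 = g.1 → s(t, G.nx t) = s(g, G.nx g) :=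
    fun g _ a t k a' o => by rw [H.ph.inj1 k o (a'.trans a.symm)]
  by_cases c1 : ∃ t ∈ G.LA, t.1 ∈ Sr ∪ Ps ∧ φ t = e ∧ t.1 ≠ g.1
  swap
  · exact Or.inr (Or.inl ⟨_, sub fun t a1 a2 a3 => one g g1 g3 t a1 a3
      (not_not.1 fun k => c1 ⟨t, a1, a2, a3, k⟩), up g g1 g3 ▸ S.arr _ g2⟩)
  obtain ⟨t, t1, t2, t3, t4⟩ := c1
  obtain rfl : e.1 = m := (up t t1 t3).symm.trans
    ((S.inj _ t2 _ g2 ((up t t1 t3).trans (up g g1 g3).symm)).resolve_left t4)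
  refine Or.inr (Or.inr (Or.inr ⟨0, ?_⟩))
  rw [tr_zero]
  refine Or.inr (Or.inr (Or.inr ⟨⟨_, h.pe_row H.ph g1 g3, _, h.pe_row H.ph t1 t3,
    sub fun y a1 a2 a3 => ?_⟩, Or.inr ?_⟩))
  · obtain ⟨w, w', k⟩ := S.two
    have k1 := k _ g2 (up g g1 g3)
    have k2 := k _ t2 (up t t1 t3)
    have k3 := k _ a2 (up y a1 a3)
    refine Or.imp (one g g1 g3 y a1 a3) (one t t1 t3 y a1 a3) ?_
    grind
  by_cases ev : Even (G.nn (Jl (FN.FL G) b e.1 + 1))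
  · exact Or.inl ⟨(S.m2 ev).1, rfl, fun y a k => (S.m2 ev).2 _ k (lev a he)⟩
  obtain ⟨a1, a2, a3⟩ := S.m3 ev
  have n1 : G.nx e ∈ G.LA := nx_la hF he
  rw [show Jm G.nx e.1 = (G.nx e).1 from jn (F := FN.FL G) H he] at a2
  have vn : G.nx e ∈ Vis G (P0 ⟨Sr, Sk, Ps, ∅⟩) := (vis_pin n1 a2).1
  refine Or.inr ⟨a1, Int.not_even_iff_odd.1 ((jnn H (jl H he)).symm ▸ ev),
    fun y a k => S.uk _ k _ a1 (lev a he), vn, ?_⟩
  rcases a3 with k | ⟨n, k⟩ | ⟨y, k, o⟩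
  · exact Or.inr fun ⟨n, n0, p⟩ => k n n0 ((jit H he n).trans p)
  · exact Or.inl ⟨n, st0_pin (jit H he n ▸ k)⟩
  · exact nw_st (Or.inr ⟨h.vis_orb (vis_pin (g := (y, 0))
      (S.sub y (k.imp_right Or.inr)) k).2 o.symm, vn⟩)

/-- No hub, both sides are narrow. -/
theorem s2 : S_S2 := by
  rintro J _ Γ η f v an G D ⟨hr, hl, l', r', a, a', e, e'⟩
  obtain ⟨l, r, h⟩ := D.sr
  have hF := h.sv.lay
  have V := h.sv.vf
  obtain rfl : l' = l := h.sv.isL_uni h.hl.1 ⟨h.rows.la a.1, a.2.1 ▸ h.vk, a.2.1 ▸ a.2.2⟩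
    (a.2.1.trans h.hl.2.symm)
  obtain rfl : r' = r := h.sv.isR_uni h.hr.1 ⟨h.rows.la a'.1, a'.2.1 ▸ h.vk, a'.2.1 ▸ a'.2.2⟩
    (a'.2.1.trans h.hr.2.symm)
  obtain ⟨φ, hφ⟩ := ph_ex hF V.pne
  obtain ⟨b, H⟩ := lb_ex hF hφ h.n3 h.rows.wp.ev
  have uu : G.xl (G.xl v) = G.xl v := (V.xo _ (V.l_nk h.u0.1)).1
  have key : ∀ z ∈ G.L 1, G.xl (G.an z) = G.xl (G.an (G.nx z)) → ∀ y ∈ G.LA, (φ y).1 ≠ z.1 :=
    fun z hz k y hy o => by
      refine ph_ne hF hφ h.sv.pr ((hF.la_tr (z.2 - (φ y).2) y).2 hy) ?_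
      rw [hφ.eqv _ _ hy, ← FK.eq_tr o]
      exact k
  have nl := key _ h.l1 (by rw [e, uu, h.hl.2])
  have nr := key _ h.r1 (by rw [e', h.xr, uu, h.hr.2])
  have ne := (side_ne h.sv hφ h.hl.1 h.hr.1 h.hl.2 h.hr.2).resolve_right
    (nl _ (h.xr v ▸ h.rows.la h.u0.1))
  rw [← D.H.eΓ]
  exact ((jcy H h.l1 h.r1 ne.symm fun y hy => ⟨nl y hy, nr y hy⟩).res _).elim
    (res_col h H hl hr nl (Or.inl rfl)) (res_col h H hl hr nr (Or.inr rfl))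

end Pool.Agent.P.MP_08fd93_co.FL
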