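import Pool.Agent.P.MP_08fd93_co.FL.H1
import Pool.Agent.P.MP_08fd93_co.FP2.M1

/-! Short tails under one top edge: two flows over a spike. -/

set_option autoImplicit false

namespace Pool.Agent.P.MP_08fd93_co.FL

open OV FN FK FZ FA PkPrtP FP2 FP FH TT

variable {J : Type} {F : FD J} {X : XD J} {Pr : Set (Vx J)} {φ : Vx J → Vx J} {b : ℤ × ℤ}
  {x y l p t : Vx J} {Sr Sk Ps : Set J}

/-- Two flows: sources `x`, `l` and pins `y`, `p` on the rows zero and one, the sink `t`. -/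
structure TW (F : FD J) (φ : Vx J → Vx J) (x y l p t : Vx J) (Sr Sk Ps : Set J) : Prop where
  dis : ∀ i ∈ Sr, i ∉ Sk ∧ i ∉ Ps
  ne : ∀ j, ∃ m ∈ F.L j, m.1 ∈ Sk
  alt : ∀ j, ∀ s ∈ F.L j, ∀ s' ∈ F.L j, s.1 ∈ Sk → s'.1 ∈ Sk → F.ρ s < F.ρ s' →
    ∃ g ∈ F.L j, g.1 ∈ Sr ∧ F.ρ s < F.ρ g ∧ F.ρ g < F.ρ s'
  sx : x.1 ∈ Sr
  py : y.1 ∈ Ps
  sl : l.1 ∈ Sr
  pp : p.1 ∈ Ps
  kt : ∀ g ∈ F.L 1, g.1 ∈ Sk ↔ g.1 = t.1
  up : ∀ g ∈ F.LA, g.1 ∈ Sr ∪ Ps → (g.1 = x.1 ∨ g.1 = y.1) ∨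
    ((φ g).1 ∈ Sk ∪ Ps ∧ (∀ e ∈ F.L 1, (φ g).1 ≠ e.1) ∧ ∃ g' ∈ F.LA, ∀ k ∈ F.LA, k.1 ∈ Sr ∪ Ps →
      φ k = φ g → k = g ∨ (k.1 = g'.1 ∧ (φ g).1 ∈ Sk ∧ (φ g).1 ∈ Ps))

theorem two_flow (H : LB F X Pr φ b) (hl : l ∈ F.L 1) (hp : p ∈ F.L 1) (ht : t ∈ F.L 1)
    (n : l.1 ≠ p.1) (n' : l.1 ≠ t.1) : ∃ A ∈ F.L 0, ∃ A' ∈ F.L 0, ∀ x ∈ F.L 0, ∀ y c,
      (y = A ∧ c = A') ∨ (y = A' ∧ c = A) → x.1 ≠ y.1 → x.1 ≠ c.1 →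
        ∃ Sr Sk Ps, TW F φ x y l p t Sr Sk Ps := by
  have b2 := H.b2
  have hF := H.lay
  obtain ⟨m, hm⟩ : ∃ m : ℕ, F.η b = m + 2 := ⟨(F.η b - 2).toNat, by omega⟩
  obtain ⟨g, e0, hg⟩ := seq_ex (α := Vx J × Vx J × Vx J)
    (fun k x => x.1 ∈ F.L (k + 1 : ℕ) ∧ x.2.1 ∈ F.L (k + 1 : ℕ) ∧ x.2.2 ∈ F.L (k + 1 : ℕ) ∧
      x.1.1 ≠ x.2.1.1 ∧ x.1.1 ≠ x.2.2.1) (fun x y => y.2.1 = φ x.2.1 ∧ y.2.2 = φ x.1) (l, p, t)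
    ⟨hl, hp, ht, n, n'⟩ fun k x hx =>
      let ⟨z, h1, h2, h3⟩ := H.off (k + 1 + 1 : ℕ) (φ x.2.1) (φ x.1)
      ⟨(z, _, _), ⟨h1, H.up hx.2.1, H.up hx.1, h2, h3⟩, rfl, rfl⟩
  have wr : ∀ z ∈ F.L (m + 1 : ℕ), tr (-b) (φ z) ∈ F.L 0 := fun z hz => by
    have := (hF.ltr (-b) _ _).2 (H.up hz)
    rwa [map_neg, show ((m + 1 + 1 : ℕ) : ℤ) + -F.η b = 0 by push_cast; omega] at this
  have hA := wr _ (hg m).1.1
  have hA' := wr _ (hg m).1.2.1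
  refine ⟨_, hA, _, hA', fun x hx y c o n1 n2 => ?_⟩
  let s : ℕ → Vx J := fun k => Nat.casesOn k x fun k => (g k).1
  let r : ℕ → Vx J := fun k => Nat.casesOn k y fun k => (g k).2.1
  let u : ℕ → Vx J := fun k => Nat.casesOn k c fun k => (g k).2.2
  have ls : ∀ k, Lv F (F.η b) k (s k) := by
    rintro (_ | k)
    exacts [H.lv_l (k := 0) hx, H.lv_l (hg k).1.1]
  have lr : ∀ k, Lv F (F.η b) k (r k) := by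
    rintro (_ | k)
    exacts [H.lv_l (k := 0) (show y ∈ F.L 0 from o.elim (fun o => o.1 ▸ hA) fun o => o.1 ▸ hA'),
      H.lv_l (hg k).1.2.1]
  have lu : ∀ k, Lv F (F.η b) k (u k) := by
    rintro (_ | k)
    exacts [H.lv_l (k := 0) (show c ∈ F.L 0 from o.elim (fun o => o.2 ▸ hA') fun o => o.2 ▸ hA),
      H.lv_l (hg k).1.2.2.1]
  have ds : ∀ k, (s k).1 ≠ (r k).1 ∧ (s k).1 ≠ (u k).1 := by
    rintro (_ | k)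
    exacts [⟨n1, n2⟩, (hg k).1.2.2.2]
  have same : ∀ {j : ℤ} {x y : Vx J} {k k' : ℕ}, x ∈ F.L j → y ∈ F.L j → Lv F (F.η b) k x →
      Lv F (F.η b) k' y → (k : ℤ) < F.η b → (k' : ℤ) < F.η b → k = k' :=
    fun hx hy a a' l l' => lv_uni a a' ((hF.lf _ _ hx).trans (hF.lf _ _ hy).symm) l l'
  have g0 : s 1 = l ∧ r 1 = p ∧ u 1 = t :=
    ⟨congrArg Prod.fst e0, congrArg (·.2.1) e0, congrArg (·.2.2) e0⟩
  have nxt : ∀ k : ℕ, ((k + 1 : ℕ) : ℤ) < F.η b → ∃ k' : ℕ, (k' : ℤ) < F.η b ∧ k' ≠ 1 ∧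
      (((φ (s (k + 1))).1 = (u k').1 ∧ (φ (r (k + 1))).1 = (r k').1) ∨
        ((φ (s (k + 1))).1 = (r k').1 ∧ (φ (r (k + 1))).1 = (u k').1)) := fun k l => by
    by_cases e : k = m
    · subst e
      refine ⟨0, by omega, by omega, ?_⟩
      rcases o with ⟨rfl, rfl⟩ | ⟨rfl, rfl⟩
      exacts [Or.inr ⟨rfl, rfl⟩, Or.inl ⟨rfl, rfl⟩]
    · exact ⟨k + 2, by omega, by omega, Or.inl ⟨congrArg Prod.fst (hg k).2.2.symm,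
        congrArg Prod.fst (hg k).2.1.symm⟩⟩
  have rep : ∀ z : Vx J, z.1 ∈ OJ (F.η b) s ∪ OJ (F.η b) r → ∃ k : ℕ, (k : ℤ) < F.η b ∧
      Lv F (F.η b) k z ∧ (z.1 = (s k).1 ∨ z.1 = (r k).1) := by
    rintro z (⟨k, l, e⟩ | ⟨k, l, e⟩)
    exacts [⟨k, l, H.lv_orb (ls k) e, Or.inl e⟩, ⟨k, l, H.lv_orb (lr k) e, Or.inr e⟩]
  refine ⟨OJ (F.η b) s, OJ (F.η b) u, OJ (F.η b) r, ?_, fun j => ?_, ?_, ⟨0, by omega, rfl⟩,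
    ⟨0, by omega, rfl⟩, ⟨1, by omega, g0.1 ▸ rfl⟩, ⟨1, by omega, g0.2.1 ▸ rfl⟩,
    fun z hz => ⟨?_, fun e => ⟨1, by omega, g0.2.2 ▸ e⟩⟩, fun z hz mz => ?_⟩
  · rintro i ⟨k, l, rfl⟩
    constructor <;> rintro ⟨k', l', e⟩
    · obtain rfl := H.lv_eq (ls k) (lu k') e l l'
      exact (ds k).2 e
    · obtain rfl := H.lv_eq (ls k) (lr k') e l l'
      exact (ds k).1 e
  · obtain ⟨k, l, d⟩ := H.lv_of j
    obtain ⟨y, hy, e⟩ := H.lv_ex (lu k) d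
    exact ⟨y, hy, k, l, e⟩
  · rintro j x hx y hy ⟨k, l, e⟩ ⟨k', l', e'⟩ lt
    have a := H.lv_orb (lu k) e
    obtain rfl := same hx hy a (H.lv_orb (lu k') e') l l'
    obtain ⟨g, hg, e1⟩ := H.lv_ex (ls k) (j := j) (hF.lf _ _ hx ▸ a.2)
    obtain ⟨z, hz, e2, k1⟩ := H.btw hx hy hg (e.trans e'.symm)
      (fun o => (ds k).2 (e1.symm.trans (o.trans e))) lt
    exact ⟨z, hz, ⟨k, l, e2.trans e1⟩, k1⟩
  · rintro ⟨k, l, e⟩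
    obtain rfl := H.lv_eq (lu k) (H.lv_l (k := 1) hz) e.symm l (by omega)
    exact g0.2.2 ▸ e
  obtain ⟨_ | k, l, a, e⟩ := rep z mz
  · exact Or.inl e
  obtain ⟨k', l', n1, q⟩ := nxt k l
  have fs : ∀ w ∈ F.LA, ∀ w', w.1 = w'.1 → (φ w).1 = (φ w').1 := fun w a w' e => H.ph.fst a e
  have ar : (φ z).1 = (u k').1 ∨ (φ z).1 = (r k').1 := by
    rcases e with e | e <;> rw [fs z hz _ e] <;> tauto
  refine Or.inr ⟨ar.imp (fun e => ⟨k', l', e⟩) fun e => ⟨k', l', e⟩, fun w hw o => n1 ?_, ?_⟩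
  · rcases ar with e | e
    exacts [H.lv_eq (lu k') (H.lv_l (k := 1) hw) (e.symm.trans o) l' (by omega),
      H.lv_eq (lr k') (H.lv_l (k := 1) hw) (e.symm.trans o) l' (by omega)]
  obtain ⟨z', a', e'⟩ : ∃ z' ∈ F.LA, (z.1 = (s (k + 1)).1 ∧ z' = r (k + 1)) ∨
      (z.1 = (r (k + 1)).1 ∧ z' = s (k + 1)) :=
    e.elim (fun e => ⟨_, (lr (k + 1)).1, Or.inl ⟨e, rfl⟩⟩)
      fun e => ⟨_, (ls (k + 1)).1, Or.inr ⟨e, rfl⟩⟩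
  refine ⟨z', a', fun w hw mw ew => ?_⟩
  obtain ⟨k2, l2, a2, e2⟩ := rep w mw
  have f1 := H.ph.lev hF hw
  have f2 := H.ph.lev hF hz
  rw [ew] at f1
  obtain rfl : k2 = k + 1 := lv_uni a2 a (by omega) l2 l
  by_cases c : w.1 = z.1
  · exact Or.inl (H.ph.inj1 hw c ew)
  have w1 : w.1 = z'.1 := by
    rcases e' with ⟨p1, rfl⟩ | ⟨p1, rfl⟩
    exacts [e2.resolve_left fun o => c (o.trans p1.symm),
      e2.resolve_right fun o => c (o.trans p1.symm)]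
  have w2 : (φ z).1 = (φ z').1 := ew ▸ fs w hw _ w1
  have w3 : (φ z).1 = (u k').1 ∧ (φ z).1 = (r k').1 := by
    rcases e' with ⟨p1, rfl⟩ | ⟨p1, rfl⟩ <;> have := fs z hz _ p1 <;> rcases q with q | q
    exacts [⟨this.trans q.1, w2.trans q.2⟩, ⟨w2.trans q.2, this.trans q.1⟩,
      ⟨w2.trans q.1, this.trans q.2⟩, ⟨this.trans q.2, w2.trans q.1⟩]
  exact Or.inr ⟨w1, ⟨k', l', w3.1⟩, k', l', w3.2⟩

theorem TW.eok (O : TW F φ x y l p t Sr Sk Ps) : EOk F (ed ⟨Sr, Sk, Ps, ∅⟩) :=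
  ⟨fun _ _ h => h, fun _ _ h => h, fun _ _ h => h, fun _ _ h => h, fun _ _ h => h,
    fun _ _ h => h, fun x h => (O.dis x.1 h).1, subset_rfl, Set.empty_subset _, O.ne, O.alt⟩

variable {G : TD J} {v z la lb lc ld : Vx J} {E : EJ J}

theorem pin_tr (h : TQ G v z la lb lc ld) (a : ℤ × ℤ) (m : t ∈ Pin G E) : tr a t ∈ Pin G E :=
  m.imp id fun k => h.chd_iff.2 (h.chd_iff.1 k : _ ∧ t.1 = _)

theorem vt_mv (h : TQ G v z la lb lc ld) (a : ℤ × ℤ) (m : t ∈ Vt G E) : tr a t ∈ Vt G E := by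
  obtain ⟨n, y, m, rfl⟩ := m
  refine ⟨n, tr a y, ?_, (h.st.ft_tr a y n).symm⟩
  rcases m with ⟨g, m, hg, e⟩ | ⟨k, hk, e⟩
  · exact Or.inl ⟨tr a g, pin_tr h a m, (h.st.lay.la_tr a g).2 hg,
      e.imp (congrArg _) fun e => by rw [e, h.rows.nx_tr a hg]⟩
  · exact Or.inr ⟨tr a k, h.st.tf.vtr _ _ hk, e.imp (fun e => by rw [e, (h.st.tf.xtr a k).1])
      fun e => by rw [e, (h.st.tf.xtr a k).2.1]⟩

theorem ho_of (col : ∀ (J : Type) [Fintype J] (G : TD J) (φ : Vx J → Vx J)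
    (v z la lb lc ld : Vx J) (E : EJ J) (Y : TX J), TQ G v z la lb lc ld → PH (FT G) G.Pr φ →
      TK G φ z E Y → ∃ c, Col1 G.Γ ∅ c) : S_HO := by
  rintro J _ G φ v z la lb lc ld h - hφ ⟨W, e2, sp, hf, fr⟩
  have hF := h.st.lay
  have R := h.rows
  have n4 := h.n4 0
  have n5 := h.n4 1
  obtain ⟨b, H⟩ := lb_ex hF hφ (fun j => by have := h.n4 j; show 3 ≤ G.nn j; omega) R.wp.ev
  obtain ⟨a1, b1, -, d1, o1, o2, o3, -⟩ := h.ord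
  rw [W.ec] at o2
  obtain ⟨n1, n2, -⟩ := R.nx_mem d1
  obtain ⟨m1, m2, -⟩ := R.nx_mem a1
  have far : ∀ j, ∀ x ∈ G.L j, ∀ t ∈ G.L j, G.ρ x < G.ρ t → G.ρ t < G.ρ x + G.nn j → t.1 ≠ x.1 :=
    fun j x a t a' l1 l2 => by
      have : (G.l j _).1 ≠ (G.l j _).1 := l_ne hF j l1 l2
      rw [R.l_rho a, R.l_rho a'] at this
      exact this.symm
  have r3 : G.ρ (tr ((1 : ℤ) • G.w) la) = G.ρ la + 1 * G.nn 1 := (hF.w_mem 1 a1).2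
  rw [one_smul, ← W.ed] at r3
  have nb := wr_ne h W
  have q1 : G.ρ lb ≠ G.ρ la := fun c => h.ne (by rw [← h.hb.2, R.inj b1 a1 c, W.eh])
  have q2 : G.ρ lb ≠ G.ρ (G.nx la) := fun c => h.ne (by rw [← h.hb.2, R.inj b1 m1 c, e2])
  obtain ⟨A, hA, A', hA', k⟩ := two_flow H n1 d1 b1 (far 1 _ d1 _ n1 (by omega) (by omega))
    (far 1 _ b1 _ n1 (by omega) (by omega))
  have u0 := h.feet.1.1
  obtain ⟨y, c, x, hx, o, x1, x2, x3, -⟩ := H.pick A A' u0 u0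
  obtain ⟨Sr, Sk, Ps, O⟩ := k x hx y c o x1 x2
  have hy : y ∈ G.L 0 := o.elim (fun o => o.1 ▸ hA) fun o => o.1 ▸ hA'
  obtain ⟨g, hg, g1, g2⟩ : ∃ g ∈ G.L 0, g.1 ≠ (G.xl z).1 ∧ ∀ t : Vx J, t.1 = x.1 ∨ t.1 = y.1 →
      t.1 = (G.xl z).1 ∨ t.1 = g.1 := x3.elim
    (fun e => ⟨y, hy, fun k => x1 (e.trans k.symm), fun t k => e ▸ k⟩)
    fun e => ⟨x, hx, fun k => x1 (k.trans e.symm), fun t k => e ▸ k.symm⟩
  obtain ⟨i, i1, i2⟩ := window hF hg (G.ρ (G.xl z))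
  have i0 : tr (i • G.w) g ∈ G.L 0 := (hF.w_mem i hg).1
  have i3 : G.ρ (G.xl z) < G.ρ (tr (i • G.w) g) :=
    lt_of_le_of_ne i1 fun q => g1 (by rw [R.inj u0 i0 q]; rfl)
  obtain ⟨X', Q, fo⟩ := fr _ i0 (sp ▸ i3) i2
  have pu := wr_phi h hφ W u0 le_rfl (by omega)
  have pg := wr_phi h hφ W i0 i1 i2
  have nc : ∀ g, ¬ Chd G g := fun g m => (h.chd_iff.1 m).1 sp.symm
  have ea1 : ld.1 = la.1 := by rw [W.ed]; rfl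
  have pin : ∀ g, g ∈ Pin G ⟨Sr, Sk, Ps, ∅⟩ → g.1 ∈ Sr ∪ Ps := fun g m => m.resolve_right (nc g)
  have upx : ∀ t ∈ G.LA, t.1 = x.1 ∨ t.1 = y.1 → (φ t).1 = ld.1 := fun t a e =>
    (g2 t e).elim (fun e => pu ▸ hφ.fst a e) fun e => pg ▸ hφ.fst a e
  refine col J G φ v z la lb lc ld ⟨Sr, Sk, Ps, ∅⟩ ⟨⟨True, True, False, False⟩, .c, .d,
    AS (FT G) {y | y.1 ∈ Sr} {y | y.1 ∈ Sk} ∪ ∅, ∅, ∅, ∅⟩ h hφ ⟨O.dis, fun _ m => m.elim,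
    fun _ m => m.elim, fun j => let ⟨m, a, k⟩ := O.ne j; Or.inl ⟨m, a, k, id⟩,
    FR.ori_as hF (FR.EOk2.of O.eok) FR.Dir.empty, Or.inl trivial, Or.inl trivial,
    Or.inr (Or.inl rfl), Or.inr rfl, fun n => absurd sp.symm n, keepL_a trivial,
    h.keepR_hub (fun a _ => vt_mv h a) (fun a _ => pin_tr h a) (Or.inl ?_) hf, fun e he => ?_⟩
  · rw [sp]
    exact x3.elim (fun e => Or.inl (e ▸ O.sx)) fun e => Or.inr (e ▸ O.py)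
  by_cases c : e.1 = ld.1
  · refine Or.inr (Or.inr (Or.inr (Or.inr ⟨ld.2 - e.2, ?_⟩)))
    rw [← FK.eq_tr c]
    refine Or.inr (Or.inr (Or.inr (Or.inl ⟨Or.inl (Or.inl (Or.inr O.pp)),
      fun m => nb ((O.kt ld d1).1 m), _, X', Q, G.nx ld, fun f m => ?_,
      Or.inr (Or.inr ⟨rfl, fun m => as_src hF O.eok (hF.la n1) O.sl (m.resolve_right id),
        Or.inl (nc _), Or.inl (Or.inl (Or.inr O.pp))⟩), fo.imp' fun _ _ _ m => m.2⟩)))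
    rcases (h.ss_iff hφ (hF.la d1)).1 m with ⟨t, t1, t2, t3, -, rfl⟩ |
      ⟨a, ⟨-, e1, rfl⟩ | ⟨-, e1, -⟩ | ⟨r, -⟩ | ⟨r, -⟩⟩
    · rcases g2 t ((O.up t t2 (pin t t1)).resolve_right fun k => k.2.1 ld d1 (t3 ▸ rfl)) with k | k
      · rw [hφ.inj1 t2 k (t3.trans pu.symm), sp]
        exact Or.inl rfl
      · rw [hφ.inj1 t2 (y' := tr (i • G.w) g) k (t3.trans pg.symm)]
        exact Or.inr (Or.inl rfl)
    · rw [tr_eq_tr (e1.symm.trans W.ed)]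
      exact Or.inr (Or.inr rfl)
    exacts [absurd (e1 ▸ rfl) nb, r.elim, r.elim]
  have sub : ∀ {T : Set (Sym2 (Vx J))}, (∀ g ∈ G.LA, g.1 ∈ Sr ∪ Ps → φ g = e → s(g, G.nx g) ∈ T) →
      (∀ a, e = tr a lb → s(tr a v, tr a z) ∈ T) →
      SST G (Pin G ⟨Sr, Sk, Ps, ∅⟩) ⟨True, True, False, False⟩ e ⊆ T := fun k k' f m => by
    rcases (h.ss_iff hφ he).1 m with ⟨g, g1, g2, g3, -, rfl⟩ |
      ⟨a, ⟨-, e1, -⟩ | ⟨-, e1, rfl⟩ | ⟨r, -⟩ | ⟨r, -⟩⟩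
    exacts [k g g2 (pin g g1) g3, absurd (e1 ▸ ea1.symm) c, k' a e1, r.elim, r.elim]
  have up := fun t a m (k : φ t = e) =>
    (O.up t a m).resolve_left fun o => c (k ▸ upx t a o)
  by_cases c1 : e.1 = lb.1
  · refine Or.inr (Or.inl ⟨s(tr (e.2 - lb.2) v, tr (e.2 - lb.2) z),
      sub (fun g a m k => absurd (k ▸ c1) ((up g a m k).2.1 lb b1)) ?_,
      Or.inl (c1 ▸ (O.kt lb b1).2 rfl)⟩)
    rintro a rfl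
    simp [tr]
  have k' : ∀ {T : Set (Sym2 (Vx J))}, ∀ a, e = tr a lb → s(tr a v, tr a z) ∈ T :=
    fun a k => absurd (k ▸ rfl) c1
  by_cases c0 : ∃ g ∈ G.LA, g.1 ∈ Sr ∪ Ps ∧ φ g = e
  swap
  · exact Or.inl (sub (fun g a1 a2 a3 => c0 ⟨g, a1, a2, a3⟩) k')
  obtain ⟨t, t1, t2, t3⟩ := c0
  obtain ⟨p1, -, t', p2, p3⟩ := up t t1 t2 t3
  rw [t3] at p1 p3
  by_cases c2 : ∃ w ∈ G.LA, w.1 ∈ Sr ∪ Ps ∧ φ w = e ∧ w ≠ t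
  · obtain ⟨w, w1, w2, w3, w4⟩ := c2
    obtain ⟨w5, w6⟩ := (p3 w w1 w2 w3).resolve_left w4
    refine Or.inr (Or.inr (Or.inl ⟨s(t, G.nx t), s(w, G.nx w), sub (fun y a1 a2 a3 => ?_) k',
      Or.inl ⟨w6.1, w6.2, nc _⟩⟩))
    exact (p3 y a1 a2 a3).imp (fun k => by rw [k]) fun k => by
      rw [hφ.inj1 a1 (k.1.trans w5.symm) (a3.trans w3.symm)]
      rfl
  · exact Or.inr (Or.inl ⟨s(t, G.nx t), sub (fun y a1 a2 a3 => by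
      rw [not_not.1 fun k => c2 ⟨y, a1, a2, a3, k⟩]
      rfl) k', p1.imp_right fun k => ⟨k, nc _⟩⟩)

end Pool.Agent.P.MP_08fd93_co.FL
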