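import Pool.Agent.P.MP_08fd93_co.FK.K4

/-! Depth one, long root: systems of pins. -/

set_option autoImplicit false

namespace Pool.Agent.P.MP_08fd93_co.FL

open OV FK

variable {J : Type}

/-- A rung separates the edge named by `g` from the edge named by `t` on the row above. -/
def Rg (F : FD J) (g t : Vx J) : Prop := F.Γ.Adj (F.nx g) t ∨ F.Γ.Adj g (F.nx t)

/-- A system of pins `G` with sources and sinks; the roots are the row vertices outside `Pr`. -/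
structure LS (F : FD J) (Pr : Set (Vx J)) (φ : Vx J → Vx J) (G Src Snk : Set (Vx J)) : Prop where
  ig : ∀ a, ∀ x ∈ G, tr a x ∈ G
  is : ∀ a, ∀ x ∈ Src, tr a x ∈ Src
  ik : ∀ a, ∀ x ∈ Snk, tr a x ∈ Snk
  la : G ⊆ F.LA
  sg : Src ⊆ G
  sp : Src ⊆ Pr
  dis : ∀ x ∈ Src, x ∉ Snk
  exs : ∀ j, ∃ g ∈ F.L j, g ∈ Src
  exk : ∀ j, ∃ g ∈ F.L j, g ∈ Snk
  uni : ∀ j, ∀ s ∈ F.L j, ∀ t ∈ F.L j, s ∈ Snk → t ∈ Snk → s.1 = t.1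
  top : ∀ g ∈ G, φ g ∈ Snk ∨ (φ g ∈ G ∧ (φ g ∉ Src ∨ F.nx (φ g) ∉ Pr ∨ Rg F g (φ g)))
  fib : ∀ g ∈ G, ∀ g' ∈ G, φ g = φ g' →
    g = g' ∨ (φ g ∈ Snk ∧ φ g ∈ G ∧ ∀ k ∈ G, φ k = φ g → k = g ∨ k = g')
  rt : ∀ r ∈ F.LA, r ∉ Pr → pv F r ∈ Src ∧ F.nx r ∈ Pr ∧ r ∉ Snk ∧
    (r ∈ G ∨ (F.an (pv F r) = F.an (F.nx r) ∧
      ∃ g ∈ G, ∃ t ∈ Pr, (t = g ∨ t = F.nx g) ∧ F.an t = F.nx r))

end Pool.Agent.P.MP_08fd93_co.FL
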