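import Pool.Agent.P.MP_08fd93_co.FL.L0
import Pool.Agent.P.MP_08fd93_co.FE.KL

/-! Depth one, long root: a system of pins gives the colouring. -/

set_option autoImplicit false

namespace Pool.Agent.P.MP_08fd93_co.FL

open OV FN FK FE PkPrtP

variable {J : Type} {F : FD J} {X : XD J} {Pr : Set (Vx J)} {φ : Vx J → Vx J}
  {G Src Snk W : Set (Vx J)}

theorem LS.eok (hF : Lay F X Pr) (H : LS F Pr φ G Src Snk) (hW : ∀ a x, tr a x ∈ W ↔ x ∈ W) :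
    EOk F ⟨Src, Snk, Snk, ∅, G ∪ W, ∅⟩ := by
  refine ⟨H.is, H.ik, H.ik, fun _ _ k => k, fun a x k => k.imp (H.ig a x) (hW a x).2,
    fun _ _ k => k, H.dis, fun _ k => k, fun _ k => k.elim, H.exk, fun j x hx y hy a b l => ?_⟩
  obtain ⟨k, -, e⟩ := same_cls hF hx hy (H.uni j x hx y hy a b)
  obtain ⟨g, hg, m⟩ := H.exs j
  obtain ⟨t, t1, t2⟩ := window hF hg (F.ρ x)
  have m1 := (hF.w_mem t hg).1
  have m2 := H.is (t • F.w) g m
  have n2 := hF.n2 j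
  refine ⟨_, m1, m2, lt_of_le_of_ne t1 fun q => H.dis _ m2 (hF.inj hx m1 q ▸ a), ?_⟩
  rcases le_or_gt k 0 with c | c <;> nlinarith

theorem col3 : ∀ a b c : Col, a.1 = b.1 → b.1 = c.1 → b ≠ a → c ≠ b → a = c := by decide

theorem LS.col [Fintype J] (hW : FZ.WFrm F Pr) (h : PH F Pr φ) (H : LS F Pr φ G Src Snk) :
    ∃ c, Col1 F.Γ ∅ c := by
  have hF := lay_of_w hW
  obtain ⟨W, r, N, hw⟩ := pw_ex (fun a x k => (hF.la_tr a x).2 k) H.ig h.eqv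
  have hE := H.eok hF hw.inv
  obtain ⟨c, o, dn, hR⟩ := rp_ex hF hW.wp.ev hE
  let p0 : PD J := ⟨c, o, dn, fun u => c u.s.1, fun j => decide (Even j), id⟩
  let p : PD J := ⟨c, o, dn, cxS F p0, fun j => decide (Even j), id⟩
  replace hR : RP F ⟨Src, Snk, Snk, ∅, G ∪ W, ∅⟩ p.c p.o p.dn := hR
  have pl : Plan0 F (X0 F) p := ⟨fun j => by
      simp only [p, ne_eq, decide_eq_decide, Int.even_add_one]
      tauto, hR.cl, fun a v hv => hR.otr hF hE a (hv.resolve_right id), fun _ _ _ => rfl,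
    fun _ k => k.elim, fun y hy => hR.mono hF hE hy, fun _ => rfl⟩
  let En : Set (Vx J) := {x | ∃ g ∈ G, x = g ∨ x = F.nx g}
  let Vs : Set (Vx J) := En ∪ F.an '' (En ∩ Pr)
  have ie : ∀ a, ∀ x ∈ En, tr a x ∈ En := by
    rintro a x ⟨g, hg, e⟩
    refine ⟨_, H.ig a g hg, ?_⟩
    rw [hF.nx_tr a (j := F.f g) (H.la hg)]
    exact e.imp (congrArg _) (congrArg _)
  have le : ∀ x ∈ En, x ∈ F.LA := by
    rintro x ⟨g, hg, rfl | rfl⟩
    exacts [H.la hg, nx_la hF (H.la hg)]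
  have nw : ∀ y ∈ G, ∀ g ∈ Pn F φ (G ∪ W) y, g ∈ G := fun y hy g m =>
    m.1.resolve_right fun k => hw.ng _ (hw.up g k) (m.2.2.symm ▸ hy)
  have both : ∀ y ∈ F.LA, y ∈ Snk → y ∈ G ∪ W → p.c y.1 = p.c (F.nx y).1 ∨
      (p.R F y ∧ y.1 ∈ p.dn ∧ p.Lt F (F.nx y) ∧ (F.nx y).1 ∈ p.dn) := fun y hy s m =>
    have a := hR.snk hF hE hy s
    have b := hR.snk_dn hF hE hy s
    Or.inr ⟨a.1, b.1.2 (Or.inl m), a.2, b.2.2 (Or.inl m)⟩
  refine wmaster (p := p) (G := G ∪ W) (Vs := Vs) hW h (ps0 pl (inv_iff hE.ipin) (inv_iff ?_)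
    (fun y hy m => Or.inr (hR.up hF hE hy (fun k => m (Or.inl (H.sg k))) m)) ?_ (fun j => ?_)
    fun y hy k => ?_) (fun y hy => ?_) (fun y hy => ?_) (fun y hy py pn => ?_) fun y hy py n => ?_
  · rintro a x (k | ⟨t, k, rfl⟩)
    exacts [Or.inl (ie a x k), Or.inr ⟨tr a t, ⟨ie a t k.1, hF.pinv a t k.2⟩, hF.atr a t k.2⟩]
  · rintro x (⟨g, hg, e⟩ | ⟨t, k, rfl⟩) -
    exacts [Or.inl ⟨g, Or.inl hg, H.la hg, e⟩,
      Or.inr (Or.inl ⟨t, Or.inl k.1, le t k.1, k.2, rfl⟩)]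
  · obtain ⟨g, hg, m⟩ := H.exs j
    exact ⟨g, hg, H.sp m, Or.inl ⟨g, H.sg m, Or.inl rfl⟩⟩
  · rcases k with k | k
    · obtain ⟨a1, -, -, a2 | ⟨-, g, hg, t, pt, e, e'⟩⟩ := H.rt y hy k
      exacts [Or.inl (Or.inl a2), Or.inr ⟨Or.inl ⟨_, H.sg a1, Or.inr (pv_mem hF (j := F.f y) hy).2.2.symm⟩,
        Or.inr ⟨t, ⟨⟨g, hg, e⟩, pt⟩, e'⟩⟩]
    · have := (H.rt _ (nx_la hF hy) k).1
      rw [pv_nx hF (j := F.f y) hy] at this
      exact Or.inl (Or.inl (H.sg this))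
  · induction hn : r y using Nat.strong_induction_on generalizing y with
    | _ n ih =>
      by_cases k : y ∈ G ∪ W
      · exact ⟨0, st0.2 (Or.inl k)⟩
      · obtain ⟨m, hm⟩ := ih _ (hn ▸ hw.lt y hy (fun g => k (Or.inl g)) fun g => k (Or.inr g)) _
          (h.la hF hy) rfl
        exact ⟨m + 1, hm⟩
  · by_cases k : y ∈ Pr
    exacts [Or.inl k, Or.inr (H.rt y hy k).2.1]
  · by_cases e : ∃ g ∈ G, φ g = y
    swap
    · have ww : ∀ g ∈ Pn F φ (G ∪ W) y, g ∈ W := fun g m =>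
        m.1.resolve_left fun k => e ⟨g, k, m.2.2⟩
      by_cases k : ∃ g, g ∈ Pn F φ (G ∪ W) y
      · obtain ⟨g, m⟩ := k
        have yw : y ∈ W := m.2.2 ▸ hw.up g (ww g m)
        exact Or.inl (od_one (fun a ha b hb => hw.inj a (ww a ha) b (ww b hb)
          (ha.2.2.trans hb.2.2.symm))
          (Or.inr (hR.down hF hy (fun s => hw.ng y yw (H.sg s)) (Or.inr yw))))
      · exact Or.inl (od_none fun g m => k ⟨g, m⟩)
    obtain ⟨g, hg, rfl⟩ := e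
    by_cases two : ∃ g' ∈ G, φ g = φ g' ∧ g ≠ g'
    · obtain ⟨g', hg', e, n⟩ := two
      obtain ⟨a1, a2, a3⟩ := (H.fib g hg g' hg' e).resolve_left n
      exact Or.inr ⟨st0.2 (Or.inl (Or.inl a2)), w1_eb hF (g := g) (g' := g')
        (fun k m => a3 k (nw _ a2 k m) m.2.2) (both _ hy a1 (Or.inl a2))⟩
    have one : ∀ k ∈ G, φ k = φ g → k = g := fun k hk e =>
      (not_not.1 fun n => two ⟨k, hk, e.symm, n⟩).symm
    by_cases yw : φ g ∈ W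
    · obtain ⟨w, w1, w2⟩ := hw.dn _ yw
      exact Or.inr ⟨st0.2 (Or.inl (Or.inr yw)), w1_eb hF (g := g) (g' := w)
        (fun k m => m.1.imp (fun a => one k a m.2.2) fun a => hw.inj k a w w1 (m.2.2.trans w2.symm))
        (both _ hy ((H.top g hg).resolve_right fun a => hw.ng _ yw a.1) (Or.inr yw))⟩
    have sg : ∀ k ∈ Pn F φ (G ∪ W) (φ g), k = g := fun k m =>
      one k (m.1.resolve_right fun a => yw (m.2.2 ▸ hw.up k a)) m.2.2
    have ss : (Pn F φ (G ∪ W) (φ g)).Subsingleton := fun a ha b hb => (sg a ha).trans (sg b hb).symm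
    rcases H.top g hg with a | ⟨a, b | b | b⟩
    · exact Or.inl (od_one ss (Or.inr (hR.snk_down hF hE hy a)))
    · exact Or.inl (od_one ss (Or.inr (hR.down hF hy b (Or.inl a))))
    · exact absurd pn b
    have gl := H.la hg
    obtain ⟨u1, -, u3, u4⟩ := h.und g gl
    obtain ⟨n1, n2, -⟩ := hF.nx_mem u1
    obtain ⟨m1, m2, -⟩ := hF.nx_mem (j := F.f g) gl
    have u5 := u4 _ n1 pn (by omega)
    have ef : F.f (φ g) - 1 = F.f g := by rw [h.lev hF gl]; omega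
    refine Or.inr ⟨st0.2 (Or.inl (Or.inl a)), ?_⟩
    rcases b with b | b
    · exact w1_sep hF ss ⟨ef ▸ m1, by omega, by omega⟩ b.symm fun k m => by rw [sg k m]; omega
    · exact w1_sep' hF ss ⟨ef ▸ gl, u3, u5.le⟩ b.symm fun k m => by rw [sg k m]
  · have l := nx_la hF hy
    obtain ⟨a1, -, a3, a4⟩ := H.rt _ l n
    rw [pv_nx hF (j := F.f y) hy] at a1 a4
    rcases a4 with a4 | a4
    swap
    · exact w2_ty hF a4.1
    have c1 : p.c (F.nx y).1 ≠ p.c y.1 := fun k => H.dis y a1 (hR.mono_snk hE hy k)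
    refine w2_da hF (fun a ha b hb => (H.fib a (nw y (H.sg a1) a ha) b (nw y (H.sg a1) b hb)
      (ha.2.2.trans hb.2.2.symm)).resolve_right fun k => H.dis y a1 (ha.2.2 ▸ k.1))
      ⟨col3 _ _ _ (by rw [hR.cl _ hy, hR.cl _ l, f_nx hF])
        (by rw [hR.cl _ l, hR.cl _ (nx_la hF l), f_nx hF (F.nx y)]) c1
        fun k => a3 (hR.mono_snk hE l k), c1, ?_⟩
    by_cases k : F.nx y ∈ AS F Src Snk
    exacts [⟨Or.inl (hR.oR _ l k), (hR.dR _ l k).2 (Or.inl (Or.inl a4))⟩,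
      ⟨Or.inr (hR.lt hF l k), (hR.dL y hy k).2 (Or.inl (Or.inl (H.sg a1)))⟩]

end Pool.Agent.P.MP_08fd93_co.FL
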