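import Pool.Agent.P.MP_08fd93_co.FL.L0

/-! Depth one, long root: systems of pins from sequences of edges. -/

set_option autoImplicit false

namespace Pool.Agent.P.MP_08fd93_co.FL

open OV FN FK PkPrtP

variable {J : Type} {F : FD J} {X : XD J} {Pr : Set (Vx J)} {φ : Vx J → Vx J} {v : Vx J}
  {b : ℤ × ℤ}

theorem seq_ex {α : Type} (I : ℕ → α → Prop) (St : α → α → Prop) (x0 : α) (h0 : I 0 x0)
    (hs : ∀ k x, I k x → ∃ y, I (k + 1) y ∧ St x y) :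
    ∃ g : ℕ → α, g 0 = x0 ∧ ∀ k, I k (g k) ∧ St (g k) (g (k + 1)) := by
  choose n h1 h2 using hs
  let g : ∀ k, {x // I k x} := fun k => Nat.rec ⟨x0, h0⟩ (fun k x => ⟨n k x.1 x.2, h1 k x.1 x.2⟩) k
  exact ⟨fun k => (g k).1, rfl, fun k => ⟨(g k).2, h2 k _ (g k).2⟩⟩

/-- The orbits of the first `q` terms. -/
def Orb (q : ℤ) (g : ℕ → Vx J) : Set (Vx J) := {y | ∃ k : ℕ, (k : ℤ) < q ∧ y.1 = (g k).1}

/-- `x` is a row vertex of level `k` modulo `q`. -/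
def Lv (F : FD J) (q : ℤ) (k : ℕ) (x : Vx J) : Prop := x ∈ F.LA ∧ q ∣ F.f x - k

/-- The next level modulo `q`. -/
def nk (q : ℤ) (k : ℕ) : ℕ := if (k : ℤ) + 1 < q then k + 1 else 0

/-- The frame of a long root `v`; `b` generates the levels. -/
structure LR (F : FD J) (X : XD J) (Pr : Set (Vx J)) (φ : Vx J → Vx J) (v : Vx J) (b : ℤ × ℤ) :
    Prop where
  lay : Lay F X Pr
  ph : PH F Pr φ
  pr : ∀ x, x ∈ Pr ↔ x.1 ≠ v.1
  v0 : v ∈ F.L 0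
  n3 : ∀ j, 3 ≤ F.nn j
  b2 : 2 ≤ F.η b
  bd : ∀ a, F.η b ∣ F.η a

theorem nk_lt {q : ℤ} (h : 0 < q) (k : ℕ) : (nk q k : ℤ) < q := by
  unfold nk
  split_ifs with c
  exacts [by exact_mod_cast c, by exact_mod_cast h]

theorem lv_uni {q : ℤ} {k k' : ℕ} {x y : Vx J} (h : Lv F q k x) (h' : Lv F q k' y)
    (e : F.f x = F.f y) (l : (k : ℤ) < q) (l' : (k' : ℤ) < q) : k = k' := by
  have d := dvd_sub h.2 h'.2
  rw [e, sub_sub_sub_cancel_left] at d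
  have := Int.eq_zero_of_abs_lt_dvd d (abs_lt.2 ⟨by omega, by omega⟩)
  omega

section

variable (H : LR F X Pr φ v b)
include H

theorem LR.lv_l {k : ℕ} {x : Vx J} (hx : x ∈ F.L k) : Lv F (F.η b) k x :=
  ⟨H.lay.la hx, by rw [H.lay.lf _ _ hx, sub_self]; exact dvd_zero _⟩

theorem LR.lv_orb {k : ℕ} {x y : Vx J} (h : Lv F (F.η b) k x) (e : y.1 = x.1) :
    Lv F (F.η b) k y := by
  rw [FK.eq_tr e.symm]
  refine ⟨(H.lay.la_tr _ _).2 h.1, ?_⟩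
  rw [H.lay.per, add_sub_right_comm]
  exact dvd_add h.2 (H.bd _)

theorem LR.lv_phi {k : ℕ} {x : Vx J} (h : Lv F (F.η b) k x) (l : (k : ℤ) < F.η b) :
    Lv F (F.η b) (nk (F.η b) k) (φ x) := by
  refine ⟨H.ph.la H.lay h.1, ?_⟩
  rw [H.ph.lev H.lay h.1]
  unfold nk
  split_ifs with c
  · push_cast
    rw [add_sub_add_right_eq_sub]
    exact h.2
  · have := dvd_add h.2 (dvd_refl (F.η b))
    rwa [show F.f x - k + F.η b = F.f x + 1 - (0 : ℕ) by push_cast; omega] at this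

theorem LR.mem_orb {g : ℕ → Vx J} (hg : ∀ k : ℕ, (k : ℤ) < F.η b → Lv F (F.η b) k (g k)) {k : ℕ}
    {y : Vx J} (h : Lv F (F.η b) k y) (l : (k : ℤ) < F.η b) :
    y ∈ Orb (F.η b) g ↔ y.1 = (g k).1 := by
  refine ⟨?_, fun e => ⟨k, l, e⟩⟩
  rintro ⟨k', l', e⟩
  rw [lv_uni h (H.lv_orb (hg k' l') e) rfl l l']
  exact e

theorem LR.orb_ex {g : ℕ → Vx J} (hg : ∀ k : ℕ, (k : ℤ) < F.η b → Lv F (F.η b) k (g k)) (j : ℤ) :
    ∃ y ∈ F.L j, y ∈ Orb (F.η b) g := by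
  have b2 := H.b2
  obtain ⟨k, hk⟩ := Int.eq_ofNat_of_zero_le (Int.emod_nonneg j (show F.η b ≠ 0 by omega))
  have l : (k : ℤ) < F.η b := hk ▸ Int.emod_lt_of_pos j (by omega)
  obtain ⟨m, c, e⟩ := hg k l
  refine ⟨tr ((j / F.η b - c) • b) (g k), ?_, k, l, rfl⟩
  have := (H.lay.ltr ((j / F.η b - c) • b) _ (g k)).2 m
  have e2 := Int.emod_add_mul_ediv j (F.η b)
  rwa [map_zsmul, smul_eq_mul, show F.f (g k) + (j / F.η b - c) * F.η b = j by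
    rw [hk] at e2; linear_combination e + e2] at this

theorem LR.root {r : Vx J} (n : r ∉ Pr) : ∃ a, r = tr a v :=
  ⟨_, FK.eq_tr (not_not.1 fun e => n ((H.pr r).2 fun k => e k.symm))⟩

theorem LR.vla : v ∈ F.LA := H.lay.la H.v0

theorem LR.vn : v ∉ Pr := fun k => (H.pr v).1 k rfl

theorem LR.pr_lv {k : ℕ} {x : Vx J} (h : Lv F (F.η b) k x) (l0 : k ≠ 0) (l : (k : ℤ) < F.η b) :
    x ∈ Pr := (H.pr x).2 fun e =>
  l0 (lv_uni h (H.lv_orb (H.lv_l (k := 0) H.v0) e) rfl l (by have := H.b2; omega))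

/-- close vertices of a row lie in different orbits -/
theorem LR.ne {j : ℤ} {x y : Vx J} (hx : x ∈ F.L j) (hy : y ∈ F.L j) (l1 : F.ρ x < F.ρ y)
    (l2 : F.ρ y ≤ F.ρ x + 2) : x.1 ≠ y.1 := by
  have := l_ne H.lay j l1 (by have := H.n3 j; omega)
  rwa [H.lay.l_rho hx, H.lay.l_rho hy] at this

theorem LR.three : (pv F v).1 ≠ v.1 ∧ (F.nx v).1 ≠ v.1 ∧ (pv F v).1 ≠ (F.nx v).1 := by
  obtain ⟨a1, a2, -⟩ := pv_mem H.lay H.v0
  obtain ⟨b1, b2, -⟩ := H.lay.nx_mem H.v0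
  exact ⟨H.ne a1 H.v0 (by omega) (by omega), (H.ne H.v0 b1 (by omega) (by omega)).symm,
    H.ne a1 b1 (by omega) (by omega)⟩

/-- an edge that ends in a root -/
theorem LR.in_iff {z : Vx J} (hz : z ∈ F.LA) : F.nx z ∉ Pr ↔ z.1 = (pv F v).1 := by
  constructor
  · intro n
    obtain ⟨a, e⟩ := H.root n
    rw [← pv_nx H.lay (j := F.f z) hz, e, pv_tr H.lay a H.vla]
    rfl
  · intro e
    obtain ⟨m, -, k⟩ := pv_mem H.lay H.v0
    rw [FK.eq_tr e.symm, H.lay.nx_tr _ m, k, H.lay.p_tr]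
    exact H.vn

theorem LR.php {z : Vx J} (hz : z ∈ F.LA) : (φ z).1 ≠ v.1 := (H.pr _).1 (H.ph.und z hz).2.1

theorem LR.rg {x y : Vx J} (hx : x ∈ F.LA) (e : y.1 = x.1) (h : Rg F x (φ x)) : Rg F y (φ y) := by
  rw [FK.eq_tr e.symm]
  unfold Rg
  rw [H.ph.eqv _ x hx, H.lay.nx_tr _ (j := F.f x) hx, H.lay.nx_tr _ (H.ph.mem hx)]
  exact h.imp (H.lay.fine.inv _ _ _) (H.lay.fine.inv _ _ _)

/-- an edge of the row outside two orbits -/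
theorem LR.off (j : ℤ) (x y : Vx J) : ∃ z ∈ F.L j, z.1 ≠ x.1 ∧ z.1 ≠ y.1 := by
  have a := H.n3 j
  have n01 := l_ne H.lay j (i := 0) (i' := 1) (by omega) (by omega)
  have n02 := l_ne H.lay j (i := 0) (i' := 2) (by omega) (by omega)
  have n12 := l_ne H.lay j (i := 1) (i' := 2) (by omega) (by omega)
  by_contra c
  simp only [not_exists, not_and, not_not] at c
  have c0 := c _ (H.lay.l_mem j 0)
  have c1 := c _ (H.lay.l_mem j 1)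
  have c2 := c _ (H.lay.l_mem j 2)
  by_cases a0 : (F.l j 0).1 = x.1
  · exact n12 ((c1 fun e => n01 (a0.trans e.symm)).trans (c2 fun e => n02 (a0.trans e.symm)).symm)
  · exact n12 ((not_not.1 fun e => n01 ((c0 a0).trans (c1 e).symm)).trans
      (not_not.1 fun e => n02 ((c0 a0).trans (c2 e).symm)).symm)

end

/-- Sources `s`, passing pins `p` and sinks `t` on the rows of one period. -/
structure LQ (F : FD J) (Pr : Set (Vx J)) (φ : Vx J → Vx J) (v : Vx J) (q : ℤ)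
    (s p t : ℕ → Vx J) : Prop where
  ls : ∀ k : ℕ, (k : ℤ) < q → Lv F q k (s k)
  lp : ∀ k : ℕ, (k : ℤ) < q → Lv F q k (p k)
  lt : ∀ k : ℕ, (k : ℤ) < q → Lv F q k (t k)
  dis : ∀ k : ℕ, (k : ℤ) < q → (s k).1 ≠ (t k).1
  top : ∀ k : ℕ, (k : ℤ) < q → ∀ g, g = s k ∨ g = p k → (φ g).1 = (t (nk q k)).1 ∨
    ((φ g).1 = (p (nk q k)).1 ∧ (p (nk q k)).1 ≠ (s (nk q k)).1) ∨
    ((φ g).1 = (s (nk q k)).1 ∧ (F.nx (φ g) ∉ Pr ∨ Rg F g (φ g)))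
  fib : ∀ k : ℕ, (k : ℤ) < q → (φ (s k)).1 = (φ (p k)).1 → (s k).1 = (p k).1 ∨
    ((φ (s k)).1 = (t (nk q k)).1 ∧ (t (nk q k)).1 = (p (nk q k)).1)
  s0 : s 0 = pv F v
  t0 : (t 0).1 ≠ v.1
  p0 : p 0 = v ∨ (F.an (pv F v) = F.an (F.nx v) ∧
    ∃ u ∈ Pr, (u = s 1 ∨ u = F.nx (s 1)) ∧ F.an u = F.nx v)

theorem LQ.sys (H : LR F X Pr φ v b) {s p t : ℕ → Vx J} (Q : LQ F Pr φ v (F.η b) s p t) :
    LS F Pr φ (Orb (F.η b) s ∪ Orb (F.η b) p) (Orb (F.η b) s) (Orb (F.η b) t) := by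
  have b2 := H.b2
  have hF := H.lay
  have rep : ∀ g ∈ Orb (F.η b) s ∪ Orb (F.η b) p, ∃ k : ℕ, (k : ℤ) < F.η b ∧
      Lv F (F.η b) k g ∧ ∃ x, (x = s k ∨ x = p k) ∧ x ∈ F.LA ∧ g.1 = x.1 := by
    rintro g (⟨k, l, e⟩ | ⟨k, l, e⟩)
    exacts [⟨k, l, H.lv_orb (Q.ls k l) e, _, Or.inl rfl, (Q.ls k l).1, e⟩,
      ⟨k, l, H.lv_orb (Q.lp k l) e, _, Or.inr rfl, (Q.lp k l).1, e⟩]
  refine ⟨fun _ _ k => k, fun _ _ k => k, fun _ _ k => k, fun g hg => ?_, fun _ k => Or.inl k, ?_, ?_,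
    H.orb_ex Q.ls, H.orb_ex Q.lt, ?_, fun g hg => ?_, fun g hg g' hg' e => ?_, fun r hr n => ?_⟩
  · obtain ⟨k, -, m, -⟩ := rep g hg
    exact m.1
  · rintro y ⟨k, l, e⟩
    by_cases c : k = 0
    · rw [H.pr, e, c, Q.s0]
      exact H.three.1
    · exact H.pr_lv (H.lv_orb (Q.ls k l) e) c l
  · rintro y ⟨k, l, e⟩ m
    exact Q.dis k l (e.symm.trans ((H.mem_orb Q.lt (H.lv_orb (Q.ls k l) e) l).1 m))
  · rintro j x hx y hy ⟨k, l, e⟩ ⟨k', l', e'⟩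
    rw [e, e', lv_uni (H.lv_orb (Q.lt k l) e) (H.lv_orb (Q.lt k' l') e')
      ((hF.lf j x hx).trans (hF.lf j y hy).symm) l l']
  · obtain ⟨k, l, m, x, hx, xa, e⟩ := rep g hg
    have l' := nk_lt (show 0 < F.η b by omega) k
    have e' : (φ g).1 = (φ x).1 := H.ph.fst m.1 e
    have m' := H.lv_phi m l
    rcases Q.top k l x hx with c | c | c
    · exact Or.inl ⟨_, l', e'.trans c⟩
    · exact Or.inr ⟨Or.inr ⟨_, l', e'.trans c.1⟩, Or.inl fun o =>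
        c.2 ((e'.trans c.1).symm.trans ((H.mem_orb Q.ls m' l').1 o))⟩
    · refine Or.inr ⟨Or.inl ⟨_, l', e'.trans c.1⟩, Or.inr (c.2.imp (fun o => ?_) (H.rg xa e))⟩
      exact (H.in_iff m'.1).2 (e'.trans ((H.in_iff (H.ph.la hF xa)).1 o))
  · have lev : ∀ {x y : Vx J}, x ∈ F.LA → y ∈ F.LA → φ x = φ y → F.f x = F.f y := fun hx hy e => by
      have a1 := H.ph.lev hF hx
      have a2 := H.ph.lev hF hy
      rw [e] at a1
      omega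
    obtain ⟨k, l, m, x, hx, xa, e1⟩ := rep g hg
    obtain ⟨k', l1, m', x', hx', xa', e2⟩ := rep g' hg'
    obtain rfl := lv_uni m m' (lev m.1 m'.1 e) l l1
    by_cases c : g.1 = g'.1
    · exact Or.inl (H.ph.inj1 m.1 c e)
    have l' := nk_lt (show 0 < F.η b by omega) k
    have e3 : (φ x).1 = (φ x').1 :=
      (H.ph.fst m.1 e1).symm.trans ((congrArg Prod.fst e).trans (H.ph.fst m'.1 e2))
    have ne : x.1 ≠ x'.1 := fun o => c (e1.trans (o.trans e2.symm))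
    have key : (φ (s k)).1 = (φ (p k)).1 ∧ (s k).1 ≠ (p k).1 ∧ (φ g).1 = (φ (s k)).1 ∧
        ∀ y, y = s k ∨ y = p k → y = x ∨ y = x' := by
      have e4 := H.ph.fst m.1 e1
      rcases hx with rfl | rfl <;> rcases hx' with rfl | rfl
      exacts [absurd rfl ne, ⟨e3, ne, e4, fun _ o => o⟩,
        ⟨e3.symm, ne.symm, e4.trans e3, fun _ o => o.symm⟩, absurd rfl ne]
    obtain ⟨c1, c2⟩ := (Q.fib k l key.1).resolve_left key.2.1
    refine Or.inr ⟨⟨_, l', key.2.2.1.trans c1⟩, Or.inr ⟨_, l', key.2.2.1.trans (c1.trans c2)⟩,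
      fun y hy e4 => ?_⟩
    obtain ⟨k', l2, m2, z, hz, -, e5⟩ := rep y hy
    obtain rfl := lv_uni m m2 (lev m.1 m2.1 e4.symm) l l2
    rcases key.2.2.2 z hz with rfl | rfl
    exacts [Or.inl (H.ph.inj1 m2.1 (e5.trans e1.symm) e4),
      Or.inr (H.ph.inj1 m2.1 (e5.trans e2.symm) (e4.trans e))]
  · obtain ⟨a, rfl⟩ := H.root n
    have l0 : ((0 : ℕ) : ℤ) < F.η b := by omega
    have l1 : ((1 : ℕ) : ℤ) < F.η b := by omega
    have p1 := (H.pr _).2 H.three.1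
    have p2 := (H.pr _).2 H.three.2.1
    rw [pv_tr hF a H.vla, hF.nx_tr a H.v0]
    refine ⟨⟨0, l0, by rw [Q.s0]; rfl⟩, hF.pinv _ _ p2, fun o => Q.t0
      ((H.mem_orb Q.lt (H.lv_orb (y := tr a v) (H.lv_l (k := 0) H.v0) rfl) l0).1 o).symm, ?_⟩
    rcases Q.p0 with c | ⟨c, u, pu, hu, e⟩
    · exact Or.inl (Or.inr ⟨0, l0, by rw [c]; rfl⟩)
    · refine Or.inr ⟨by rw [hF.atr a _ p1, hF.atr a _ p2, c], tr a (s 1), Or.inl ⟨1, l1, rfl⟩,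
        tr a u, hF.pinv _ _ pu, ?_, by rw [hF.atr a _ pu, e]⟩
      rw [hF.nx_tr a (j := F.f (s 1)) (Q.ls 1 l1).1]
      exact hu.imp (congrArg _) (congrArg _)

end Pool.Agent.P.MP_08fd93_co.FL
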