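import Mathlib

/-! Flows on a cyclic system of finite levels with two entrances outside the image. -/

set_option autoImplicit false

namespace Pool.Agent.P.MP_08fd93_co.FL

variable {J : Type} {q : ℕ} {A : Set J} {lv : J → ℕ} {ψ ν : J → J} {s s1 : J}

theorem seq_ix {α : Type} (I : ℕ → α → Prop) (St : ℕ → α → α → Prop) (x0 : α) (h0 : I 0 x0)
    (hs : ∀ k x, I k x → ∃ y, I (k + 1) y ∧ St k x y) :
    ∃ g : ℕ → α, g 0 = x0 ∧ ∀ k, I k (g k) ∧ St k (g k) (g (k + 1)) := by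
  choose n h1 h2 using hs
  let g : ∀ k, {x // I k x} := fun k => Nat.rec ⟨x0, h0⟩ (fun k x => ⟨n k x.1 x.2, h1 k x.1 x.2⟩) k
  exact ⟨fun k => (g k).1, rfl, fun k => ⟨(g k).2, h2 k _ (g k).2⟩⟩

/-- Levels `0 .. q - 1`; `ψ` goes one level up, `ν` to the neighbour on the level; `s` and `s1`
are not images. -/
structure Cy (q : ℕ) (A : Set J) (lv : J → ℕ) (ψ ν : J → J) (s s1 : J) : Prop where
  q2 : 2 ≤ q
  lt : ∀ i ∈ A, lv i < q
  up : ∀ i ∈ A, ψ i ∈ A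
  lu : ∀ i ∈ A, lv (ψ i) = lv i + 1 ∨ (lv i + 1 = q ∧ lv (ψ i) = 0)
  three : ∀ k < q, ∀ x y, ∃ z ∈ A, lv z = k ∧ z ≠ x ∧ z ≠ y
  nx : ∀ i ∈ A, ν i ∈ A ∧ lv (ν i) = lv i ∧ ν i ≠ i
  pv : ∀ i ∈ A, ∃ y ∈ A, ν y = i
  sa : s ∈ A ∧ lv s = 0
  sb : s1 ∈ A ∧ lv s1 = 0
  ne : s ≠ s1
  nar : ∀ i ∈ A, ψ i ≠ s ∧ ψ i ≠ s1

/-- A system of flows with the extra arrival `σ` and one double arrival `e`. -/
structure Sys (q : ℕ) (A : Set J) (lv : J → ℕ) (ψ ν : J → J) (Ev : ℕ → Prop) (σ e : J)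
    (Sr Sk Ps : Set J) : Prop where
  ea : e ∈ A
  sub : ∀ i, i ∈ Sr ∨ i ∈ Sk ∨ i ∈ Ps → i ∈ A
  dis : ∀ i ∈ Sr, i ∉ Sk ∧ i ∉ Ps
  uk : ∀ i ∈ Sk, ∀ i' ∈ Sk, lv i = lv i' → i = i'
  ex : ∀ k < q, ¬ (Ev k ∧ k = lv e) → (∃ i ∈ Sr, lv i = k) ∧ ∃ i ∈ Sk, lv i = k
  arr : ∀ x ∈ Sr ∪ Ps, ψ x ∈ Sk ∪ Ps
  eps : σ ∈ Sk ∪ Ps
  inj : ∀ x ∈ Sr ∪ Ps, ∀ y ∈ Sr ∪ Ps, ψ x = ψ y → x = y ∨ ψ x = e
  two : ∃ w w', ∀ x ∈ Sr ∪ Ps, ψ x = e → x = w ∨ x = w'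
  m2 : Ev (lv e) → e ∈ Ps ∧ ∀ i ∈ Sk, lv i ≠ lv e
  m3 : ¬ Ev (lv e) → e ∈ Sk ∧ ν e ∈ Sr ∪ Ps ∧ ((∀ n, 0 < n → ψ^[n] e ≠ e) ∨
    (∃ n, ψ^[n] e ∈ Sr ∪ Ps) ∨ ∃ y ∈ Sr ∪ Ps, ν y = e)

/-- The only edge under the next term of the orbit is the term itself. -/
def Thin (A : Set J) (ψ : J → J) (s : J) (k : ℕ) : Prop :=
  ∀ x ∈ A, ψ x = ψ (ψ^[k] s) → x = ψ^[k] s

/-- The first terms of the orbit. -/
def Pi (ψ : J → J) (s : J) (i : ℕ) : Set J := {x | ∃ k ≤ i, x = ψ^[k] s}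

theorem its (ψ : J → J) (k : ℕ) (x : J) : ψ^[k + 1] x = ψ (ψ^[k] x) :=
  Function.iterate_succ_apply' ψ k x

theorem Cy.symm (C : Cy q A lv ψ ν s s1) : Cy q A lv ψ ν s1 s :=
  ⟨C.q2, C.lt, C.up, C.lu, C.three, C.nx, C.pv, C.sb, C.sa, C.ne.symm, fun i h => (C.nar i h).symm⟩

section

variable (C : Cy q A lv ψ ν s s1)
include C

theorem Cy.it {x : J} (hx : x ∈ A) (k : ℕ) : ψ^[k] x ∈ A := by
  induction k with
  | zero => exact hx
  | succ k ih => exact its ψ k x ▸ C.up _ ih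

theorem Cy.thin_inj {a : ℕ} (T : ∀ k < a, Thin A ψ s k) {t : J} (ht : t = s ∨ t = s1) {b : ℕ}
    (e : ψ^[a] s = ψ^[b] t) : a = b ∧ s = t := by
  have ta : t ∈ A := ht.elim (fun k => k ▸ C.sa.1) fun k => k ▸ C.sb.1
  induction a generalizing b with
  | zero =>
    cases b with
    | zero => exact ⟨rfl, e⟩
    | succ b => exact absurd (e.trans (its ψ b t)).symm (C.nar _ (C.it ta b)).1
  | succ a ih =>
    cases b with
    | zero =>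
      have := C.nar _ (C.it C.sa.1 a)
      rw [← its ψ a s, e] at this
      exact ht.elim (fun k => absurd k this.1) fun k => absurd k this.2
    | succ b =>
      rw [its, its] at e
      have := ih (fun k l => T k (by omega)) (T a (by omega) _ (C.it ta b) e.symm).symm
      exact ⟨by omega, this.2⟩

theorem Cy.fat [Finite J] : ∃ i, ¬ Thin A ψ s i := by
  by_contra c
  simp only [not_exists, not_not] at c
  obtain ⟨a, b, n, e⟩ := Finite.exists_ne_map_eq_of_infinite fun k : ℕ => ψ^[k] s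
  exact n (C.thin_inj (fun k _ => c k) (Or.inl rfl) e).1

theorem Cy.lev (k : ℕ) : lv (ψ^[k] s) = lv (ψ^[k] s1) ∧ lv (ψ^[k] s) ≤ k ∧
    (k < q → lv (ψ^[k] s) = k) := by
  induction k with
  | zero => exact ⟨C.sa.2.trans C.sb.2.symm, C.sa.2.le, fun _ => C.sa.2⟩
  | succ k ih =>
    have a := C.lu _ (C.it C.sa.1 k)
    have b := C.lu _ (C.it C.sb.1 k)
    have c := C.lt _ (C.it C.sa.1 (k + 1))
    have d := C.lt _ (C.it C.sb.1 (k + 1))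
    rw [its] at c d
    rw [its, its]
    omega

/-- the level below is determined -/
theorem Cy.lv_inj {x y : J} (hx : x ∈ A) (hy : y ∈ A) (e : lv (ψ x) = lv (ψ y)) : lv x = lv y := by
  have a := C.lu x hx
  have b := C.lu y hy
  omega

end

/-- The two orbits are thin up to `i`; `w` is a second edge under `e`. -/
structure Ch (q : ℕ) (A : Set J) (lv : J → ℕ) (ψ ν : J → J) (s s1 : J) (i : ℕ) (e w : J) :
    Prop where
  cy : Cy q A lv ψ ν s s1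
  t : ∀ k < i, Thin A ψ s k
  t1 : ∀ k < i, Thin A ψ s1 k
  ee : e = ψ (ψ^[i] s)
  wa : w ∈ A
  wn : w ≠ ψ^[i] s
  we : ψ w = e
  per : (∀ n, 0 < n → ψ^[n] e ≠ e) ∨ ∃ n, ψ^[n] e = w

theorem Cy.ch (C : Cy q A lv ψ ν s s1) {i : ℕ} (t : ∀ k < i, Thin A ψ s k)
    (t1 : ∀ k < i, Thin A ψ s1 k) (n : ¬ Thin A ψ s i) : ∃ e w, Ch q A lv ψ ν s s1 i e w := by
  by_cases c : ∀ n, 0 < n → ψ^[n] (ψ (ψ^[i] s)) ≠ ψ (ψ^[i] s)
  · simp only [Thin, not_forall] at n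
    obtain ⟨w, h1, h2, h3⟩ := n
    exact ⟨_, w, C, t, t1, rfl, h1, h3, h2, Or.inl c⟩
  · simp only [not_forall, not_not] at c
    obtain ⟨_ | m, l, c⟩ := c
    · omega
    refine ⟨_, ψ^[m] (ψ (ψ^[i] s)), C, t, t1, rfl, C.it (C.up _ (C.it C.sa.1 i)) m, fun k => ?_,
      (its ψ m _).symm.trans c, Or.inr ⟨m, rfl⟩⟩
    rw [← its ψ i s, ← Function.iterate_add_apply] at k
    have := (C.thin_inj t (Or.inl rfl) k.symm).1
    omega

variable {i : ℕ} {e w : J}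

section

variable (H : Ch q A lv ψ ν s s1 i e w)
include H

theorem Ch.pa {x : J} (hx : x ∈ Pi ψ s i) : x ∈ A := by
  obtain ⟨k, -, rfl⟩ := hx
  exact H.cy.it H.cy.sa.1 k

theorem Ch.ea : e ∈ A := H.we ▸ H.cy.up w H.wa

theorem Ch.dn {x : J} (hx : x ∈ A) (h : ψ x ∈ Pi ψ s i) : x ∈ Pi ψ s i := by
  obtain ⟨_ | k, l, h⟩ := h
  · exact absurd h (H.cy.nar x hx).1
  · exact ⟨k, by omega, H.t k (by omega) x hx (h.trans (its ψ k s))⟩

theorem Ch.nxt {x : J} (hx : x ∈ Pi ψ s i) : ψ x ∈ Pi ψ s i ∨ x = ψ^[i] s := by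
  obtain ⟨k, l, rfl⟩ := hx
  rcases eq_or_lt_of_le l with rfl | l
  exacts [Or.inr rfl, Or.inl ⟨k + 1, l, (its ψ k s).symm⟩]

theorem Ch.en : e ∉ Pi ψ s i := by
  rintro ⟨k, l, h⟩
  rw [H.ee, ← its ψ i s] at h
  have := (H.cy.thin_inj (fun m c => H.t m (by omega)) (Or.inl rfl) h.symm).1
  omega

theorem Ch.on (k : ℕ) : ψ^[k] s1 ∉ Pi ψ s i := by
  rintro ⟨m, l, h⟩
  exact H.cy.ne (H.cy.thin_inj (fun m c => H.t m (by omega)) (Or.inr rfl) h.symm).2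

theorem Ch.pe {x : J} (hx : x ∈ Pi ψ s i) (h : ψ x = e) : x = ψ^[i] s :=
  (H.nxt hx).resolve_left fun k => H.en (h ▸ k)

theorem Ch.wp : w ∉ Pi ψ s i := fun k => H.wn (H.pe k H.we)

theorem Ch.lw : lv w = lv (ψ^[i] s) :=
  H.cy.lv_inj H.wa (H.cy.it H.cy.sa.1 i) (by rw [H.we, H.ee])

/-- two edges outside the first terms on every level -/
theorem Ch.sec {k : ℕ} (l : k < q) (x : J) : ∃ z ∈ A, z ∉ Pi ψ s i ∧ lv z = k ∧ z ≠ x := by
  by_contra c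
  simp only [not_exists, not_and, not_not] at c
  have m : ∀ z ∈ A, lv z = k → z ≠ x → z ∈ Pi ψ s i := fun z a b n =>
    not_not.1 fun p => n (c z a p b)
  obtain ⟨y, y1, y2, y3, -⟩ := H.cy.three k l x x
  obtain ⟨z, z1, z2, z3, z4⟩ := H.cy.three k l x y
  obtain ⟨a, la, rfl⟩ := m y y1 y2 y3
  obtain ⟨b, lb, rfl⟩ := m z z1 z2 z3
  have e1 := c _ (H.cy.it H.cy.sb.1 a) (H.on a) ((H.cy.lev a).1.symm.trans y2)
  have e2 := c _ (H.cy.it H.cy.sb.1 b) (H.on b) ((H.cy.lev b).1.symm.trans z2)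
  obtain ⟨rfl, -⟩ := H.cy.symm.thin_inj (fun m c => H.t1 m (by omega)) (Or.inl rfl)
    (e1.trans e2.symm)
  exact z4 rfl

/-- a source below a prescribed edge -/
theorem Ch.back {k : ℕ} (l : k < lv w) (x : J) : ∃ z ∈ A, z ∉ Pi ψ s i ∧ lv z = k ∧ ψ z ≠ x := by
  have a := H.cy.lt w H.wa
  have b := H.cy.lev k
  have c := (H.cy.lev i).2.1
  rw [← H.lw] at c
  by_cases n : ψ (ψ^[k] s1) = x
  · obtain ⟨z, z1, z2, z3, z4⟩ := H.sec (k := k) (by omega) (ψ^[k] s1)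
    exact ⟨z, z1, z2, z3, fun o => z4 (H.t1 k (by omega) z z1 (o.trans n.symm))⟩
  · exact ⟨_, H.cy.it H.cy.sb.1 k, H.on k, b.1.symm.trans (b.2.2 (by omega)), n⟩

end

/-- One edge outside the first terms on every level. -/
def Sel (q : ℕ) (A : Set J) (lv : J → ℕ) (P : Set J) (g : ℕ → J) : Prop :=
  ∀ k < q, g k ∈ A ∧ g k ∉ P ∧ lv (g k) = k

/-- sources below the level `j` and above it -/
theorem Ch.path (H : Ch q A lv ψ ν s s1 i e w) {j : ℕ} {x N : J} (lj : j ≤ lv w)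
    (hx : x ∈ A ∧ x ∉ Pi ψ s i ∧ lv x = j) (hN : j + 1 < q → N ∈ A ∧ N ∉ Pi ψ s i ∧ lv N = j + 1) :
    ∃ g, Sel q A lv (Pi ψ s i) g ∧ g j = x ∧ g (j + 1) = N ∧
      ∀ k, k + 1 < q → k ≠ j → ψ (g k) ≠ g (k + 1) := by
  obtain ⟨b, b0, hb⟩ := seq_ix (fun d y => d ≤ j → y ∈ A ∧ y ∉ Pi ψ s i ∧ lv y = j - d)
    (fun d y z => d < j → ψ z ≠ y) x (fun _ => hx) fun d y _ => by
      by_cases c : d < j
      · obtain ⟨z, z1, z2, z3, z4⟩ := H.back (k := j - (d + 1)) (by omega) y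
        exact ⟨z, fun _ => ⟨z1, z2, z3⟩, fun _ => z4⟩
      · exact ⟨y, fun l => by omega, fun l => absurd l c⟩
  obtain ⟨u, u0, hu⟩ := seq_ix
    (fun d y => j + 1 + d < q → y ∈ A ∧ y ∉ Pi ψ s i ∧ lv y = j + 1 + d)
    (fun d y z => j + 1 + (d + 1) < q → ψ y ≠ z) N hN fun d y _ => by
      by_cases c : j + 1 + (d + 1) < q
      · obtain ⟨z, z1, z2, z3, z4⟩ := H.sec c (ψ y)
        exact ⟨z, fun _ => ⟨z1, z2, z3⟩, fun _ => z4.symm⟩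
      · exact ⟨y, fun l => absurd l c, fun l => absurd l c⟩
  refine ⟨fun k => if k ≤ j then b (j - k) else u (k - (j + 1)), fun k l => ?_, by simp [b0],
    by simp [u0], fun k l n => ?_⟩
  · by_cases c : k ≤ j
    · simp only [if_pos c]
      have := (hb (j - k)).1 (by omega)
      rwa [show j - (j - k) = k by omega] at this
    · simp only [if_neg c]
      have := (hu (k - (j + 1))).1 (by omega)
      rwa [show j + 1 + (k - (j + 1)) = k by omega] at this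
  · by_cases c : k < j
    · simp only [if_pos c.le, if_pos (show k + 1 ≤ j from c)]
      have := (hb (j - (k + 1))).2 (by omega)
      rwa [show j - (k + 1) + 1 = j - k by omega] at this
    · simp only [if_neg (show ¬ k ≤ j by omega), if_neg (show ¬ k + 1 ≤ j by omega)]
      have := (hu (k - (j + 1))).2 (by omega)
      rwa [show k - (j + 1) + 1 = k + 1 - (j + 1) by omega] at this

end Pool.Agent.P.MP_08fd93_co.FL
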