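import Pool.Agent.P.MP_08fd93_co.FL.S1

/-! The systems of flows with two entrances outside the image. -/

set_option autoImplicit false

namespace Pool.Agent.P.MP_08fd93_co.FL

variable {J : Type} {q : ℕ} {A : Set J} {lv : J → ℕ} {ψ ν : J → J} {s s1 : J} {i : ℕ} {e w : J}
  {Ev : ℕ → Prop} {g : ℕ → J}

/-- The terms on the levels with a flow. -/
def OS (q : ℕ) (Ev : ℕ → Prop) (m : ℕ) (a : ℕ → J) : Set J :=
  {x | ∃ k < q, ¬ (Ev k ∧ k = m) ∧ x = a k}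

/-- The level below. -/
def pr (q k : ℕ) : ℕ := if k = 0 then q - 1 else k - 1

section

variable (H : Ch q A lv ψ ν s s1 i e w)
include H

theorem Ch.sys {σ : J} {a b : ℕ → J} {Ps : Set J}
    (h1 : ∀ k < q, ¬ (Ev k ∧ k = lv e) →
      a k ∈ A ∧ lv (a k) = k ∧ b k ∈ A ∧ lv (b k) = k ∧ a k ≠ b k ∧ a k ∉ Ps)
    (pa : ∀ x ∈ Ps, x ∈ A)
    (pin : ∀ x ∈ OS q Ev (lv e) a ∪ Ps, (x ∈ Pi ψ s i ∨ (x ∉ Pi ψ s i ∧ x = g (lv x)) ∨
      (x = s1 ∧ 0 < lv w)) ∧ ψ x ∈ OS q Ev (lv e) b ∪ Ps)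
    (eps : σ ∈ OS q Ev (lv e) b ∪ Ps) (m2 : Ev (lv e) → e ∈ Ps)
    (m3 : ¬ Ev (lv e) → e = b (lv e) ∧ ν e ∈ OS q Ev (lv e) a ∪ Ps ∧ ((∀ n, 0 < n → ψ^[n] e ≠ e) ∨
      (∃ n, ψ^[n] e ∈ OS q Ev (lv e) a ∪ Ps) ∨ ∃ y ∈ OS q Ev (lv e) a ∪ Ps, ν y = e)) :
    Sys q A lv ψ ν Ev σ e (OS q Ev (lv e) a) (OS q Ev (lv e) b) Ps := by
  have C := H.cy
  have pA : ∀ x ∈ OS q Ev (lv e) a ∪ Ps, x ∈ A := by
    rintro x (⟨k, l, d, rfl⟩ | h)
    exacts [(h1 k l d).1, pa x h]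
  have t0 : 0 < lv w → ∀ x ∈ A, ψ x = ψ s1 → x = s1 := fun l =>
    H.t1 0 (by have := (C.lev i).2.1; rw [← H.lw] at this; omega)
  have mix : ∀ x ∈ Pi ψ s i, ∀ y ∈ A, ψ x = ψ y → x = y ∨ ψ x = e := by
    rintro _ ⟨k, l, rfl⟩ y hy h
    rcases eq_or_lt_of_le l with rfl | l
    exacts [Or.inr H.ee.symm, Or.inl (H.t k l y hy h.symm).symm]
  refine ⟨H.ea, ?_, ?_, ?_, fun k l d => ?_, fun x hx => (pin x hx).2, eps,
    fun x hx y hy h => ?_, ⟨ψ^[i] s, g (lv w), fun x hx h => ?_⟩, fun c => ⟨m2 c, ?_⟩,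
    fun c => ⟨⟨_, C.lt e H.ea, fun k => c k.1, (m3 c).1⟩, (m3 c).2⟩⟩
  · rintro x (h | ⟨k, l, d, rfl⟩ | h)
    exacts [pA x (Or.inl h), (h1 k l d).2.2.1, pa x h]
  · rintro _ ⟨k, l, d, rfl⟩
    obtain ⟨-, a2, -, -, a5, a6⟩ := h1 k l d
    refine ⟨?_, a6⟩
    rintro ⟨k', l', d', h⟩
    obtain rfl : k = k' := a2.symm.trans (h ▸ (h1 k' l' d').2.2.2.1)
    exact a5 h
  · rintro _ ⟨k, l, d, rfl⟩ _ ⟨k', l', d', rfl⟩ h
    rw [(h1 k l d).2.2.2.1, (h1 k' l' d').2.2.2.1] at h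
    rw [h]
  · obtain ⟨-, a2, -, a4, -⟩ := h1 k l d
    exact ⟨⟨_, ⟨k, l, d, rfl⟩, a2⟩, _, ⟨k, l, d, rfl⟩, a4⟩
  · rcases (pin x hx).1 with c | c | c
    · exact mix x c y (pA y hy) h
    · rcases (pin y hy).1 with c' | c' | c'
      · exact (mix y c' x (pA x hx) h.symm).imp Eq.symm fun k => h.trans k
      · exact Or.inl (by rw [c.2, c'.2, C.lv_inj (pA x hx) (pA y hy) (congrArg lv h)])
      · exact Or.inl ((t0 c'.2 x (pA x hx) (c'.1 ▸ h)).trans c'.1.symm)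
    · exact Or.inl (c.1.trans (t0 c.2 y (pA y hy) (c.1 ▸ h.symm)).symm)
  · have l := C.lv_inj (pA x hx) H.wa (by rw [h, H.we])
    rcases (pin x hx).1 with c | c | c
    · exact Or.inl (H.pe c h)
    · exact Or.inr (l ▸ c.2)
    · rw [c.1, C.sb.2] at l
      omega
  · rintro _ ⟨k, l, d, rfl⟩ h
    rw [(h1 k l d).2.2.2.1] at h
    exact d ⟨h ▸ c, h⟩

theorem Ch.lve : lv e = lv w + 1 ∨ (lv w + 1 = q ∧ lv e = 0) := H.we ▸ H.cy.lu w H.wa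

theorem Ch.pre : pr q (lv e) = lv w := by
  have := H.lve
  unfold pr
  split_ifs <;> omega

/-- the arrivals of the selected edges -/
theorem Ch.arr (S : Sel q A lv (Pi ψ s i) g) {k : ℕ} (l : k < q) :
    pr q k < q ∧ ψ (g (pr q k)) ∈ A ∧ lv (ψ (g (pr q k))) = k ∧ ψ (g (pr q k)) ∉ Pi ψ s i ∧
      lv (ψ (g k)) < q ∧ pr q (lv (ψ (g k))) = k := by
  have q2 := H.cy.q2
  have l' : pr q k < q := by
    unfold pr
    split_ifs <;> omega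
  obtain ⟨a1, a2, a3⟩ := S _ l'
  obtain ⟨b1, -, b3⟩ := S _ l
  have c := H.cy.lu _ a1
  have d := H.cy.lu _ b1
  have c' := H.cy.lt _ (H.cy.up _ a1)
  have d' := H.cy.lt _ (H.cy.up _ b1)
  refine ⟨l', H.cy.up _ a1, ?_, fun h => a2 (H.dn a1 h), d', ?_⟩
  · rw [a3] at c
    unfold pr at c c' ⊢
    split_ifs at c c' ⊢ <;> omega
  · unfold pr
    split_ifs <;> omega

end

/-- The selected edges with the second edge under `e`. -/
structure Gd (q : ℕ) (A : Set J) (lv : J → ℕ) (ψ ν : J → J) (s : J) (i : ℕ) (e w : J)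
    (Ev : ℕ → Prop) (g : ℕ → J) : Prop where
  sel : Sel q A lv (Pi ψ s i) g
  ge : ψ (g (lv w)) = e
  ev : Ev (lv e) → g (lv e) = e
  od : ¬ Ev (lv e) → g (lv e) ≠ e

/-- The result. -/
def Res (q : ℕ) (A : Set J) (lv : J → ℕ) (ψ ν : J → J) (Ev : ℕ → Prop) (σ : J) : Prop :=
  ∃ e Sr Sk Ps, Sys q A lv ψ ν Ev σ e Sr Sk Ps

section

variable (H : Ch q A lv ψ ν s s1 i e w) (Q : Gd q A lv ψ ν s i e w Ev g)
include H Q

omit H in
theorem Gd.gne {k : ℕ} (l : k < q) (d : ¬ (Ev k ∧ k = lv e)) : ¬ (g k = e ∧ Ev (lv e)) := fun h => by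
  have := (Q.sel k l).2.2
  rw [h.1] at this
  exact d ⟨this ▸ h.2, this.symm⟩

theorem Ch.link (lk : ∀ k < q, k ≠ lv e → g k ≠ ψ (g (pr q k))) {k : ℕ} (l : k < q)
    (d : ¬ (Ev k ∧ k = lv e)) : g k ≠ ψ (g (pr q k)) := by
  by_cases c : k = lv e
  · rw [c, H.pre, Q.ge]
    exact Q.od fun h => d ⟨c ▸ h, c⟩
  · exact lk k l c

/-- the arrival of a selected edge -/
theorem Ch.ar1 {k : ℕ} (l : k < q) {b : ℕ → J} (hb : b (lv (ψ (g k))) = ψ (g k)) :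
    ψ (g k) ∈ OS q Ev (lv e) b ∨ (ψ (g k) = e ∧ Ev (lv e)) := by
  obtain ⟨-, -, -, -, a, c⟩ := H.arr Q.sel l
  by_cases d : Ev (lv (ψ (g k))) ∧ lv (ψ (g k)) = lv e
  · rw [d.2, H.pre] at c
    exact Or.inr ⟨c ▸ Q.ge, d.2 ▸ d.1⟩
  · exact Or.inl ⟨_, a, d, hb.symm⟩

/-- one flow through the selected edges -/
theorem Ch.resA (lk : ∀ k < q, k ≠ lv e → g k ≠ ψ (g (pr q k)))
    (n : ¬ Ev (lv e) → (ν e = g (lv e) ∨ ν e ∈ Pi ψ s i) ∧
      (g (lv w) = w ∨ ∃ y, (y = g (lv e) ∨ y ∈ Pi ψ s i) ∧ ν y = e)) :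
    Res q A lv ψ ν Ev s := by
  have C := H.cy
  have le := C.lt e H.ea
  have lw := C.lt w H.wa
  have be : ψ (g (pr q (lv e))) = e := H.pre ▸ Q.ge
  have ea : ψ (ψ^[i] s) ∈ OS q Ev (lv e) (fun k => ψ (g (pr q k))) ∪
      (Pi ψ s i ∪ {x | x = e ∧ Ev (lv e)}) := by
    rw [← H.ee]
    by_cases c : Ev (lv e)
    exacts [Or.inr (Or.inr ⟨rfl, c⟩), Or.inl ⟨_, le, fun k => c k.1, be.symm⟩]
  have ga : ∀ k < q, (g k ∈ Pi ψ s i ∨ (g k ∉ Pi ψ s i ∧ g k = g (lv (g k))) ∨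
      (g k = s1 ∧ 0 < lv w)) ∧ ψ (g k) ∈ OS q Ev (lv e) (fun k => ψ (g (pr q k))) ∪
      (Pi ψ s i ∪ {x | x = e ∧ Ev (lv e)}) := fun k l =>
    ⟨Or.inr (Or.inl ⟨(Q.sel k l).2.1, by rw [(Q.sel k l).2.2]⟩),
      (H.ar1 Q l (by rw [(H.arr Q.sel l).2.2.2.2.2])).imp_right Or.inr⟩
  refine ⟨e, _, _, Pi ψ s i ∪ {x | x = e ∧ Ev (lv e)}, H.sys (g := g) (a := g)
    (b := fun k => ψ (g (pr q k))) (fun k l d => ?_) ?_ ?_ (Or.inr (Or.inl ⟨0, i.zero_le, rfl⟩))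
    (fun c => Or.inr ⟨rfl, c⟩) fun c => ⟨be.symm, ?_, ?_⟩⟩
  · obtain ⟨a1, a2, a3⟩ := Q.sel k l
    obtain ⟨-, b1, b2, -⟩ := H.arr Q.sel l
    exact ⟨a1, a3, b1, b2, H.link Q lk l d, fun h => h.elim a2 (Q.gne l d)⟩
  · rintro x (h | ⟨rfl, -⟩)
    exacts [H.pa h, H.ea]
  · rintro x (⟨k, l, -, rfl⟩ | h | ⟨h, c⟩)
    · exact ga k l
    · exact ⟨Or.inl h, (H.nxt h).elim (fun k => Or.inr (Or.inl k)) fun k => k ▸ ea⟩
    · rw [h.trans (Q.ev c).symm]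
      exact ga _ le
  · exact (n c).1.imp (fun h => ⟨_, le, fun k => c k.1, h⟩) Or.inl
  · rcases (n c).2 with h | ⟨y, h, k⟩
    · exact H.per.imp_right fun ⟨m, k⟩ =>
        Or.inl ⟨m, Or.inl ⟨_, lw, fun k => c (k.2 ▸ k.1), k.trans h.symm⟩⟩
    · exact Or.inr (Or.inr ⟨y, h.imp (fun h => ⟨_, le, fun k => c k.1, h⟩) Or.inl, k⟩)

/-- the flow closes up on the level zero: change of the side -/
theorem Ch.resB (l0 : lv e ≠ 0) (gw : g (lv w) = w) (cl : ψ (g (q - 1)) = g 0)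
    (lk : ∀ k < q, k ≠ 0 → k ≠ lv e → g k ≠ ψ (g (pr q k)))
    (n : ¬ Ev (lv e) → ν e = g (lv e) ∨ ν e ∈ Pi ψ s i) : Res q A lv ψ ν Ev s1 := by
  have C := H.cy
  have q2 := C.q2
  have le := C.lt e H.ea
  have lw := C.lt w H.wa
  have be : ψ (g (pr q (lv e))) = e := H.pre ▸ Q.ge
  have d0 : ¬ (Ev 0 ∧ 0 = lv e) := fun k => l0 k.2.symm
  let a : ℕ → J := fun k => if k = 0 then s else g k
  let b : ℕ → J := fun k => if k = 0 then s1 else ψ (g (pr q k))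
  let P : Set J := (Pi ψ s i \ {s}) ∪ ({g 0} ∪ {x | x = e ∧ Ev (lv e)})
  have eb : e = b (lv e) := ((if_neg l0).trans be).symm
  have ea : ∀ x ∈ Pi ψ s i, ψ x ∈ OS q Ev (lv e) b ∪ P := fun x h => by
    rcases H.nxt h with k | k
    · exact Or.inr (Or.inl ⟨k, (C.nar x (H.pa h)).1⟩)
    rw [k, ← H.ee]
    by_cases c : Ev (lv e)
    exacts [Or.inr (Or.inr (Or.inr ⟨rfl, c⟩)), Or.inl ⟨_, le, fun k => c k.1, eb⟩]
  have ga : ∀ k < q, (g k ∈ Pi ψ s i ∨ (g k ∉ Pi ψ s i ∧ g k = g (lv (g k))) ∨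
      (g k = s1 ∧ 0 < lv w)) ∧ ψ (g k) ∈ OS q Ev (lv e) b ∪ P := fun k l => by
    refine ⟨Or.inr (Or.inl ⟨(Q.sel k l).2.1, by rw [(Q.sel k l).2.2]⟩), ?_⟩
    have p := (H.arr Q.sel l).2.2.2.2.2
    by_cases c : lv (ψ (g k)) = 0
    · rw [c] at p
      exact Or.inr (Or.inr (Or.inl (p ▸ cl)))
    · exact (H.ar1 Q l ((if_neg c).trans (by rw [p]))).imp_right fun h => Or.inr (Or.inr h)
  have gp : ∀ k < q, ¬ (Ev k ∧ k = lv e) → g k ∈ OS q Ev (lv e) a ∪ P := fun k l d => by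
    by_cases c : k = 0
    exacts [Or.inr (Or.inr (Or.inl (c ▸ rfl))), Or.inl ⟨k, l, d, (if_neg c).symm⟩]
  have s0 : s ∈ Pi ψ s i := ⟨0, i.zero_le, rfl⟩
  refine ⟨e, _, _, P, H.sys (g := g) (a := a) (b := b) (fun k l d => ?_) ?_ ?_
    (Or.inl ⟨0, by omega, d0, rfl⟩) (fun c => Or.inr (Or.inr ⟨rfl, c⟩)) fun c => ⟨eb, ?_, ?_⟩⟩
  · obtain ⟨a1, a2, a3⟩ := Q.sel k l
    by_cases c : k = 0
    · subst c
      refine ⟨C.sa.1, C.sa.2, C.sb.1, C.sb.2, C.ne, ?_⟩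
      rintro (h | h | h)
      exacts [h.2 rfl, a2 (h ▸ s0), H.en (h.1 ▸ s0)]
    · obtain ⟨-, b1, b2, -⟩ := H.arr Q.sel l
      simp only [a, b, if_neg c]
      refine ⟨a1, a3, b1, b2, ?_, ?_⟩
      · by_cases m : k = lv e
        · rw [m, be]
          exact Q.od fun h => d ⟨m ▸ h, m⟩
        · exact lk k l c m
      · rintro (h | h | h)
        exacts [a2 h.1, c (a3.symm.trans (h ▸ (Q.sel 0 (by omega)).2.2)), Q.gne l d h]
  · rintro x (h | rfl | ⟨rfl, -⟩)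
    exacts [H.pa h.1, (Q.sel 0 (by omega)).1, H.ea]
  · rintro x (⟨k, l, -, rfl⟩ | h | rfl | ⟨h, c⟩)
    · by_cases c : k = 0
      · simp only [a, if_pos c]
        exact ⟨Or.inl s0, ea s s0⟩
      · simp only [a, if_neg c]
        exact ga k l
    · exact ⟨Or.inl h.1, ea x h.1⟩
    · exact ga 0 (by omega)
    · rw [h.trans (Q.ev c).symm]
      exact ga _ le
  · rcases n c with h | h
    · exact h ▸ gp _ le fun k => c k.1
    · exact Or.inr (Or.inl ⟨h, fun k => l0 ((C.nx e H.ea).2.1.symm.trans (k ▸ C.sa.2))⟩)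
  · exact H.per.imp_right fun ⟨m, k⟩ => Or.inl ⟨m, k ▸ gw ▸ gp _ lw fun k => c (k.2 ▸ k.1)⟩

/-- the double arrival lies on the level zero: the first term is not pinned -/
theorem Ch.resC (l0 : lv e = 0) (gw : g (lv w) = w) (g0 : g 0 ≠ s1)
    (t2 : g 1 = ψ s1 ∨ g 1 = ψ (g 0)) (lk : ∀ k < q, 2 ≤ k → g k ≠ ψ (g (pr q k)))
    (n : ¬ Ev (lv e) → ν e = g 0 ∨ ν e = s1) : Res q A lv ψ ν Ev s1 := by
  have C := H.cy
  have q2 := C.q2
  have lw : lv w + 1 = q := by have := H.lve; omega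
  have i1 : 1 ≤ i := by have := (C.lev i).2.1; rw [← H.lw] at this; omega
  obtain ⟨z1, z2, z3⟩ := Q.sel 0 (by omega)
  obtain ⟨y1, y2, y3⟩ := Q.sel 1 (by omega)
  have d1 : ¬ (Ev 1 ∧ 1 = lv e) := fun k => by omega
  have s0 : ψ s ∈ Pi ψ s i := ⟨1, i1, rfl⟩
  have up : ∀ x ∈ A, lv x = 0 → lv (ψ x) = 1 := fun x h k => by have := C.lu x h; omega
  obtain ⟨c, c1, c2, c3, c4, c5⟩ : ∃ c ∈ A, lv c = 1 ∧ c ∉ Pi ψ s i ∧ (ψ s1 = g 1 ∨ ψ s1 = c) ∧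
      (ψ (g 0) = g 1 ∨ ψ (g 0) = c) := by
    rcases t2 with h | h
    exacts [⟨_, C.up _ z1, up _ z1 z3, fun k => z2 (H.dn z1 k), Or.inl h.symm, Or.inr rfl⟩,
      ⟨_, C.up _ C.sb.1, up _ C.sb.1 C.sb.2, H.on 1, Or.inr rfl, Or.inl h.symm⟩]
  let a : ℕ → J := fun k => if k = 1 then ψ s else g k
  let b : ℕ → J := fun k => if k = 1 then c else ψ (g (pr q k))
  let P : Set J := (Pi ψ s i \ {s, ψ s}) ∪ ({s1, g 1} ∪ {x | x = e ∧ Ev (lv e)})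
  have be : ψ (g (pr q (lv e))) = e := H.pre ▸ Q.ge
  have eb : e = b (lv e) := ((if_neg (by omega)).trans be).symm
  have le := C.lt e H.ea
  have ea : ∀ x ∈ Pi ψ s i, x ≠ s → ψ x ∈ OS q Ev (lv e) b ∪ P := fun x h n => by
    rcases H.nxt h with k | k
    · exact Or.inr (Or.inl ⟨k, fun m => m.elim (C.nar x (H.pa h)).1 fun m =>
        n (H.t 0 i1 x (H.pa h) m)⟩)
    rw [k, ← H.ee]
    by_cases c : Ev (lv e)
    exacts [Or.inr (Or.inr (Or.inr ⟨rfl, c⟩)), Or.inl ⟨_, le, fun k => c k.1, eb⟩]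
  have cc : ∀ x, x = g 1 ∨ x = c → x ∈ OS q Ev (lv e) b ∪ P := by
    rintro x (rfl | rfl)
    exacts [Or.inr (Or.inr (Or.inl (Or.inr rfl))), Or.inl ⟨1, by omega, d1, rfl⟩]
  have ga : ∀ k < q, (g k ∈ Pi ψ s i ∨ (g k ∉ Pi ψ s i ∧ g k = g (lv (g k))) ∨
      (g k = s1 ∧ 0 < lv w)) ∧ ψ (g k) ∈ OS q Ev (lv e) b ∪ P := fun k l => by
    refine ⟨Or.inr (Or.inl ⟨(Q.sel k l).2.1, by rw [(Q.sel k l).2.2]⟩), ?_⟩
    have p := (H.arr Q.sel l).2.2.2.2.2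
    by_cases m : lv (ψ (g k)) = 1
    · rw [m] at p
      exact p ▸ cc _ c5
    · exact (H.ar1 Q l ((if_neg m).trans (by rw [p]))).imp_right fun h => Or.inr (Or.inr h)
  have gp : ∀ k < q, ¬ (Ev k ∧ k = lv e) → g k ∈ OS q Ev (lv e) a ∪ P := fun k l d => by
    by_cases c : k = 1
    exacts [Or.inr (Or.inr (Or.inl (Or.inr (c ▸ rfl)))), Or.inl ⟨k, l, d, (if_neg c).symm⟩]
  refine ⟨e, _, _, P, H.sys (g := g) (a := a) (b := b) (fun k l d => ?_) ?_ ?_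
    (Or.inr (Or.inr (Or.inl (Or.inl rfl)))) (fun c => Or.inr (Or.inr ⟨rfl, c⟩))
    fun c => ⟨eb, ?_, ?_⟩⟩
  · obtain ⟨a1, a2, a3⟩ := Q.sel k l
    by_cases m : k = 1
    · subst m
      refine ⟨C.up s C.sa.1, up s C.sa.1 C.sa.2, c1, c2, fun h => c3 ((show ψ s = c from h) ▸ s0), ?_⟩
      rintro (h | (h | h) | h)
      exacts [h.2 (Or.inr rfl), (C.nar s C.sa.1).2 h, y2 (h ▸ s0), H.en (h.1 ▸ s0)]
    · obtain ⟨-, b1, b2, -⟩ := H.arr Q.sel l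
      simp only [a, b, if_neg m]
      refine ⟨a1, a3, b1, b2, ?_, ?_⟩
      · by_cases o : k = lv e
        · rw [o, be]
          exact Q.od fun h => d ⟨o ▸ h, o⟩
        · exact lk k l (by omega)
      · rintro (h | (h | h) | h)
        · exact a2 h.1
        · obtain rfl : k = 0 := a3.symm.trans (h ▸ C.sb.2)
          exact g0 h
        exacts [m (a3.symm.trans (h ▸ y3)), Q.gne l d h]
  · rintro x (h | (rfl | rfl) | ⟨rfl, -⟩)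
    exacts [H.pa h.1, C.sb.1, y1, H.ea]
  · rintro x (⟨k, l, -, rfl⟩ | h | (h | rfl) | ⟨h, c⟩)
    · by_cases c : k = 1
      · simp only [a, if_pos c]
        exact ⟨Or.inl s0, ea _ s0 (C.nar s C.sa.1).1⟩
      · simp only [a, if_neg c]
        exact ga k l
    · exact ⟨Or.inl h.1, ea x h.1 fun k => h.2 (Or.inl k)⟩
    · exact ⟨Or.inr (Or.inr ⟨h, by omega⟩), h ▸ cc _ c4⟩
    · exact ga 1 (by omega)
    · rw [h.trans (Q.ev c).symm]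
      exact ga _ le
  · rcases n c with h | h
    · exact h ▸ gp 0 (by omega) fun k => c (k.2 ▸ k.1)
    · exact Or.inr (Or.inr (Or.inl (Or.inl h)))
  · exact H.per.imp_right fun ⟨m, k⟩ =>
      Or.inl ⟨m, k ▸ gw ▸ gp _ (by omega) fun k => c (k.2 ▸ k.1)⟩

end

theorem pr_succ {k : ℕ} (h : k ≠ 0) : pr q k + 1 = k := by
  unfold pr
  rw [if_neg h]
  omega

theorem Ch.res (H : Ch q A lv ψ ν s s1 i e w) (Ev : ℕ → Prop) :
    Res q A lv ψ ν Ev s ∨ Res q A lv ψ ν Ev s1 := by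
  have C := H.cy
  have q2 := C.q2
  have le := C.lt e H.ea
  obtain ⟨n1, n2, n3⟩ := C.nx e H.ea
  have es : e ≠ s1 := H.we ▸ (C.nar w H.wa).2
  have lk : ∀ {g : ℕ → J} {j : ℕ}, (∀ k, k + 1 < q → k ≠ j → ψ (g k) ≠ g (k + 1)) →
      ∀ k < q, k ≠ 0 → k ≠ j + 1 → g k ≠ ψ (g (pr q k)) := fun h k l a b m => by
    have := pr_succ (q := q) a
    exact h (pr q k) (by omega) (by omega) (this.symm ▸ m.symm)
  rcases H.lve with l | ⟨l, l0⟩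
  · obtain ⟨N, a1, a2, a3, a4, a5⟩ : ∃ N ∈ A, N ∉ Pi ψ s i ∧ lv N = lv e ∧ (Ev (lv e) → N = e) ∧
        (¬ Ev (lv e) → N ≠ e ∧ (ν e = N ∨ ν e ∈ Pi ψ s i)) := by
      by_cases c : Ev (lv e)
      · exact ⟨e, H.ea, H.en, rfl, fun _ => rfl, fun k => absurd c k⟩
      by_cases m : ν e ∈ Pi ψ s i
      · obtain ⟨z, z1, z2, z3, z4⟩ := H.sec le e
        exact ⟨z, z1, z2, z3, fun k => absurd k c, fun _ => ⟨z4, Or.inr m⟩⟩
      · exact ⟨_, n1, m, n2, fun k => absurd k c, fun _ => ⟨n3, Or.inl rfl⟩⟩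
    obtain ⟨g, g1, g2, g3, g4⟩ := H.path (N := N) le_rfl ⟨H.wa, H.wp, rfl⟩
      fun _ => ⟨a1, a2, a3.trans l⟩
    rw [← l] at g3
    have Q : Gd q A lv ψ ν s i e w Ev g :=
      ⟨g1, g2.symm ▸ H.we, fun c => g3.trans (a4 c), fun c => g3.symm ▸ (a5 c).1⟩
    by_cases c : ψ (g (q - 1)) = g 0
    · exact Or.inr (H.resB Q (by omega) g2 c (fun k a b m => lk g4 k a b (l ▸ m))
        fun c => g3.symm ▸ (a5 c).2)
    · refine Or.inl (H.resA Q (fun k a m => ?_) fun c => ⟨g3.symm ▸ (a5 c).2, Or.inl g2⟩)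
      by_cases b : k = 0
      · subst b
        exact fun h => c h.symm
      · exact lk g4 k a b (l ▸ m)
  have i1 : 1 ≤ i := by have := (C.lev i).2.1; rw [← H.lw] at this; omega
  by_cases c : ¬ Ev (lv e) ∧ ∀ z ∈ A, z ∉ Pi ψ s i → lv z = 0 → z = e ∨ z = s1
  · obtain ⟨N, a1, a2, a3, a4⟩ := H.sec (k := 1) (by omega) (ψ s1)
    obtain ⟨g, g1, g2, g3, g4⟩ := H.path (j := 0) (N := N) (lv w).zero_le
      ⟨C.sb.1, H.on 0, C.sb.2⟩ fun _ => ⟨a1, a2, a3⟩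
    obtain ⟨b1, b2, b3, b4, -⟩ := H.arr g1 le
    rw [H.pre] at b1 b2 b3 b4
    have Q : Gd q A lv ψ ν s i e w Ev g :=
      ⟨g1, (c.2 _ b2 b4 (b3.trans l0)).resolve_right (C.nar _ (g1 _ b1).1).2,
        fun k => absurd k c.1, fun _ => by rw [l0, g2]; exact es.symm⟩
    have o : ∀ y ∈ A, lv y = lv e → y ≠ e → y = g (lv e) ∨ y ∈ Pi ψ s i := fun y h k n => by
      rw [l0, g2]
      exact or_iff_not_imp_right.2 fun m => (c.2 y h m (k.trans l0)).resolve_left n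
    obtain ⟨y, y1, y2⟩ := C.pv e H.ea
    refine Or.inl (H.resA Q (fun k a m => ?_) fun _ => ⟨o _ n1 n2 n3, Or.inr ⟨y, o y y1
      (y2 ▸ (C.nx y y1).2.1.symm) fun k => (C.nx y y1).2.2 (y2.trans k.symm), y2⟩⟩)
    by_cases b : k = 1
    · subst b
      rw [show pr q 1 = 0 from rfl, g2, g3]
      exact a4
    · exact lk g4 k a (l0 ▸ m) b
  obtain ⟨g, g1, g2, -, g4⟩ := H.path (N := e) le_rfl ⟨H.wa, H.wp, rfl⟩ fun _ => by omega
  have w0 : lv w ≠ 0 := by omega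
  have Q : ∀ x ∈ A, x ∉ Pi ψ s i → lv x = 0 → (Ev (lv e) → x = e) → (¬ Ev (lv e) → x ≠ e) →
      Gd q A lv ψ ν s i e w Ev fun k => if k = 0 then x else g k := fun x a1 a2 a3 a4 a5 => by
    refine ⟨fun k l => ?_, by simp only [if_neg w0, g2, H.we], fun c => by simpa [l0] using a4 c,
      fun c => by simpa [l0] using a5 c⟩
    by_cases c : k = 0
    · simp only [if_pos c]
      exact ⟨a1, a2, a3.trans c.symm⟩
    · simp only [if_neg c]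
      exact g1 k l
  have lk2 : ∀ x : J, ∀ k < q, 2 ≤ k → (if k = 0 then x else g k) ≠
      ψ (if pr q k = 0 then x else g (pr q k)) := fun x k a b => by
    have := pr_succ (q := q) (k := k) (by omega)
    rw [if_neg (by omega), if_neg (by omega)]
    exact lk g4 k a (by omega) (by omega)
  have al : ∀ x ∈ A, x ∉ Pi ψ s i → lv x = 0 → (Ev (lv e) → x = e) →
      (¬ Ev (lv e) → x ≠ e ∧ (ν e = x ∨ ν e ∈ Pi ψ s i)) → g 1 ≠ ψ x → Res q A lv ψ ν Ev s :=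
    fun x a1 a2 a3 a4 a5 a6 => H.resA (Q x a1 a2 a3 a4 fun c => (a5 c).1) (fun k a m => by
      by_cases b : k = 1
      · subst b
        exact a6
      · exact lk2 x k a (by omega))
      fun c => ⟨by simpa [l0] using (a5 c).2, Or.inl ((if_neg w0).trans g2)⟩
  have be : ∀ x ∈ A, x ∉ Pi ψ s i → lv x = 0 → (Ev (lv e) → x = e) →
      (¬ Ev (lv e) → x ≠ e ∧ (ν e = x ∨ ν e = s1)) → x ≠ s1 → (g 1 = ψ s1 ∨ g 1 = ψ x) →
      Res q A lv ψ ν Ev s1 := fun x a1 a2 a3 a4 a5 a6 a7 =>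
    H.resC (Q x a1 a2 a3 a4 fun c => (a5 c).1) l0 ((if_neg w0).trans g2) a6 a7 (lk2 x)
      fun c => (a5 c).2
  by_cases v : Ev (lv e)
  · by_cases b : g 1 = ψ e
    exacts [Or.inr (be e H.ea H.en l0 (fun _ => rfl) (fun k => absurd v k) es (Or.inr b)),
      Or.inl (al e H.ea H.en l0 (fun _ => rfl) (fun k => absurd v k) b)]
  by_cases m : ν e ∈ Pi ψ s i ∨ ν e = s1
  swap
  · rw [not_or] at m
    by_cases b : g 1 = ψ (ν e)
    exacts [Or.inr (be _ n1 m.1 (n2.trans l0) (fun k => absurd k v) (fun _ => ⟨n3, Or.inl rfl⟩)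
      m.2 (Or.inr b)), Or.inl (al _ n1 m.1 (n2.trans l0) (fun k => absurd k v)
        (fun _ => ⟨n3, Or.inl rfl⟩) b)]
  by_cases b : g 1 = ψ s1
  swap
  · exact Or.inl (al s1 C.sb.1 (H.on 0) C.sb.2 (fun k => absurd k v)
      (fun _ => ⟨es.symm, m.symm⟩) b)
  simp only [v, not_false_eq_true, true_and, not_forall, not_or] at c
  obtain ⟨z, z1, z2, z3, z4, z5⟩ := c
  rcases m with m | m
  exacts [Or.inl (al z z1 z2 z3 (fun k => absurd k v) (fun _ => ⟨z4, Or.inr m⟩)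
    fun k => z5 (H.t1 0 i1 z z1 (k.symm.trans b))),
    Or.inr (be z z1 z2 z3 (fun k => absurd k v) (fun _ => ⟨z4, Or.inr m⟩) z5 (Or.inl b))]

/-- A system of flows exists for one of the two entrances. -/
theorem Cy.res [Finite J] (C : Cy q A lv ψ ν s s1) (Ev : ℕ → Prop) :
    Res q A lv ψ ν Ev s ∨ Res q A lv ψ ν Ev s1 := by
  classical
  have a := C.fat
  have b := C.symm.fat
  have t : ∀ k < Nat.find a, Thin A ψ s k := fun k l => not_not.1 (Nat.find_min a l)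
  have t1 : ∀ k < Nat.find b, Thin A ψ s1 k := fun k l => not_not.1 (Nat.find_min b l)
  rcases le_total (Nat.find a) (Nat.find b) with l | l
  · obtain ⟨e, w, H⟩ := C.ch t (fun k m => t1 k (by omega)) (Nat.find_spec a)
    exact H.res Ev
  · obtain ⟨e, w, H⟩ := C.symm.ch t1 (fun k m => t k (by omega)) (Nat.find_spec b)
    exact (H.res Ev).symm

end Pool.Agent.P.MP_08fd93_co.FL
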